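import Mathlib

set_option autoImplicit false

namespace Pool.Agent.H136.GB

open Finset

/-- All pairs of different elements of `S` are related. -/
def Cl {α : Type} (r : α → α → Prop) (S : Finset α) : Prop :=
  ∀ x ∈ S, ∀ y ∈ S, x ≠ y → r x y

lemma Cl.mono {α : Type} {r : α → α → Prop} {S T : Finset α} (h : Cl r T) (hST : S ⊆ T) :
    Cl r S := fun x hx y hy => h x (hST hx) y (hST hy)

lemma ramsey {α : Type} [DecidableEq α] (r : α → α → Prop) (hr : ∀ x y, r x y → r y x) :
    ∀ (N a b : ℕ), a + b = N → ∀ T : Finset α, (a + b).choose a ≤ T.card →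
      (∃ S ⊆ T, S.card = a + 1 ∧ Cl r S) ∨
        (∃ S ⊆ T, S.card = b + 1 ∧ Cl (fun x y => ¬ r x y) S) := by
  classical
  intro N
  induction N with
  | zero =>
    intro a b hab T hT
    obtain ⟨rfl, rfl⟩ : a = 0 ∧ b = 0 := by omega
    have h1 : 0 < T.card := by simpa using hT
    obtain ⟨v, hv⟩ := Finset.card_pos.mp h1
    refine Or.inl ⟨{v}, by simpa using hv, by simp, ?_⟩
    intro x hx y hy hxy
    rw [Finset.mem_singleton] at hx hy
    exact absurd (hx.trans hy.symm) hxy
  | succ N ih =>
    intro a b hab T hT
    have h1 : 0 < T.card := lt_of_lt_of_le (Nat.choose_pos (by omega)) hT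
    obtain ⟨v, hv⟩ := Finset.card_pos.mp h1
    rcases Nat.eq_zero_or_pos a with ha | ha
    · subst ha
      refine Or.inl ⟨{v}, by simpa using hv, by simp, ?_⟩
      intro x hx y hy hxy
      rw [Finset.mem_singleton] at hx hy
      exact absurd (hx.trans hy.symm) hxy
    rcases Nat.eq_zero_or_pos b with hb | hb
    · subst hb
      refine Or.inr ⟨{v}, by simpa using hv, by simp, ?_⟩
      intro x hx y hy hxy
      rw [Finset.mem_singleton] at hx hy
      exact absurd (hx.trans hy.symm) hxy
    obtain ⟨a, rfl⟩ : ∃ a', a = a' + 1 := ⟨a - 1, by omega⟩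
    obtain ⟨b, rfl⟩ : ∃ b', b = b' + 1 := ⟨b - 1, by omega⟩
    let Tr := (T.erase v).filter fun u => r v u
    let Tb := (T.erase v).filter fun u => ¬ r v u
    have h2 : Tr.card + Tb.card = T.card - 1 := by
      rw [← Finset.card_erase_of_mem hv]
      exact Finset.card_filter_add_card_filter_not _
    have h3 : (a + 1 + (b + 1)).choose (a + 1) =
        (a + (b + 1)).choose a + (a + 1 + b).choose (a + 1) := by
      have : a + 1 + (b + 1) = (a + (b + 1)) + 1 := by ring
      rw [this, Nat.choose_succ_succ]
      congr 2
      ring
    by_cases h4 : (a + (b + 1)).choose a ≤ Tr.card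
    · rcases ih a (b + 1) (by omega) Tr h4 with ⟨S, hS, hc, hS2⟩ | ⟨S, hS, hc, hS2⟩
      · refine Or.inl ⟨insert v S, ?_, ?_, ?_⟩
        · refine Finset.insert_subset hv (hS.trans ?_)
          exact (Finset.filter_subset _ _).trans (Finset.erase_subset _ _)
        · rw [Finset.card_insert_of_notMem, hc]
          intro hvS
          have := hS hvS
          simp [Tr] at this
        · intro x hx y hy hxy
          rcases Finset.mem_insert.mp hx with hx' | hx'
          · rcases Finset.mem_insert.mp hy with hy' | hy'
            · exact absurd (hx'.trans hy'.symm) hxy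
            · rw [hx']
              exact (Finset.mem_filter.mp (hS hy')).2
          · rcases Finset.mem_insert.mp hy with hy' | hy'
            · rw [hy']
              exact hr _ _ (Finset.mem_filter.mp (hS hx')).2
            · exact hS2 x hx' y hy' hxy
      · exact Or.inr ⟨S, hS.trans ((Finset.filter_subset _ _).trans (Finset.erase_subset _ _)),
          hc, hS2⟩
    · have h5 : (a + 1 + b).choose (a + 1) ≤ Tb.card := by omega
      rcases ih (a + 1) b (by omega) Tb h5 with ⟨S, hS, hc, hS2⟩ | ⟨S, hS, hc, hS2⟩
      · exact Or.inl ⟨S, hS.trans ((Finset.filter_subset _ _).trans (Finset.erase_subset _ _)),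
          hc, hS2⟩
      · refine Or.inr ⟨insert v S, ?_, ?_, ?_⟩
        · refine Finset.insert_subset hv (hS.trans ?_)
          exact (Finset.filter_subset _ _).trans (Finset.erase_subset _ _)
        · rw [Finset.card_insert_of_notMem, hc]
          intro hvS
          have := hS hvS
          simp [Tb] at this
        · intro x hx y hy hxy
          rcases Finset.mem_insert.mp hx with hx' | hx'
          · rcases Finset.mem_insert.mp hy with hy' | hy'
            · exact absurd (hx'.trans hy'.symm) hxy
            · rw [hx']
              exact (Finset.mem_filter.mp (hS hy')).2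
          · rcases Finset.mem_insert.mp hy with hy' | hy'
            · rw [hy']
              exact fun h6 => (Finset.mem_filter.mp (hS hx')).2 (hr _ _ h6)
            · exact hS2 x hx' y hy' hxy

/-- Double counting: few elements of `B` have many bad partners. -/
lemma few {α β : Type} (A : Finset α) (B : Finset β) (bad : α → β → Prop)
    [∀ u v, Decidable (bad u v)] {X t : ℝ}
    (ht : 0 < t) (h : (((A ×ˢ B).filter fun z => bad z.1 z.2).card : ℝ) ≤ X) :
    ((B.filter fun v => t < ((A.filter fun u => bad u v).card : ℝ)).card : ℝ) ≤ X / t := by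
  rw [le_div_iff₀ ht]
  refine le_trans ?_ h
  have e1 : (((A ×ˢ B).filter fun z => bad z.1 z.2).card : ℝ) =
      ∑ v ∈ B, ((A.filter fun u => bad u v).card : ℝ) := by
    rw [Finset.card_filter, Finset.sum_product_right]
    push_cast
    refine Finset.sum_congr rfl fun v _ => ?_
    rw [Finset.card_filter]
    push_cast
    rfl
  rw [e1]
  calc ((B.filter fun v => t < ((A.filter fun u => bad u v).card : ℝ)).card : ℝ) * t
      = ∑ v ∈ B.filter fun v => t < ((A.filter fun u => bad u v).card : ℝ), t := by
        rw [Finset.sum_const, nsmul_eq_mul]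
    _ ≤ ∑ v ∈ B.filter fun v => t < ((A.filter fun u => bad u v).card : ℝ),
          ((A.filter fun u => bad u v).card : ℝ) :=
        Finset.sum_le_sum fun v hv => (Finset.mem_filter.mp hv).2.le
    _ ≤ _ := Finset.sum_le_sum_of_subset_of_nonneg (Finset.filter_subset _ _)
        fun _ _ _ => Nat.cast_nonneg _

lemma few' {α β : Type} (A : Finset α) (B : Finset β) (bad : α → β → Prop)
    [∀ u v, Decidable (bad u v)] {X t : ℝ}
    (ht : 0 < t) (h : (((A ×ˢ B).filter fun z => bad z.1 z.2).card : ℝ) ≤ X) :
    ((A.filter fun u => t < ((B.filter fun v => bad u v).card : ℝ)).card : ℝ) ≤ X / t := by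
  refine few B A (fun v u => bad u v) ht (le_trans (le_of_eq ?_) h)
  congr 1
  refine Finset.card_bij (fun z _ => (z.2, z.1)) ?_ ?_ ?_
  · rintro ⟨v, u⟩ hz
    simp only [Finset.mem_filter, Finset.mem_product] at hz ⊢
    tauto
  · rintro ⟨v, u⟩ _ ⟨v', u'⟩ _ hz
    simp only [Prod.mk.injEq] at hz ⊢
    tauto
  · rintro ⟨u, v⟩ hz
    refine ⟨(v, u), ?_, rfl⟩
    simp only [Finset.mem_filter, Finset.mem_product] at hz ⊢
    tauto

open Classical in
/-- **The block lemma** (after Burr, Erdős and Spencer). -/
theorem block {α : Type} (r g : α → α → Prop) (hr : ∀ x y, r x y → r y x)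
    {m d l : ℕ} (hd : 0 < d) (V : Fin m → Finset α) {θ : ℝ} (hθ0 : 0 < θ)
    (hθ : 16 * (m : ℝ) ^ 3 * θ ≤ 1)
    (hbad : ∀ i j, i < j → ((((V i) ×ˢ (V j)).filter fun z => ¬ g z.1 z.2).card : ℝ) ≤
      θ * (V i).card * (V j).card)
    (hbig : ∀ i, 4 * (((2 * m * d).choose d) ^ m * (2 * m * d + l).choose (2 * m * d)) ≤
      (V i).card) :
    (∃ S : Finset α, S.card = l ∧ Cl (fun x y => ¬ r x y) S) ∨
    (∃ S : Fin m → Finset α, (∀ i, S i ⊆ V i ∧ (S i).card = m * d ∧ Cl r (S i)) ∧
      ∀ i j, i < j → ∀ u ∈ S i, ∀ v ∈ S j, g u v) := by
  by_cases hblue : ∃ S : Finset α, S.card = l ∧ Cl (fun x y => ¬ r x y) S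
  · exact Or.inl hblue
  refine Or.inr ?_
  -- cleaning
  let V' : Fin m → Finset α := fun i => (V i).filter fun u => ∀ j, i < j →
    (((V j).filter fun v => ¬ g u v).card : ℝ) ≤ 2 * m * θ * (V j).card
  have hVpos : ∀ i, (0 : ℝ) < (V i).card := by
    intro i
    have h1 : 0 < 4 * (((2 * m * d).choose d) ^ m * (2 * m * d + l).choose (2 * m * d)) := by
      have hm : 0 < m := i.pos
      have h2 : 0 < (2 * m * d).choose d := Nat.choose_pos (by nlinarith)
      have h3 : 0 < (2 * m * d + l).choose (2 * m * d) := Nat.choose_pos (by omega)
      positivity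
    exact_mod_cast lt_of_lt_of_le h1 (hbig i)
  have hV' : ∀ i, ((V i).card : ℝ) / 2 ≤ (V' i).card := by
    intro i
    have hm : (0 : ℝ) < m := by exact_mod_cast i.pos
    have h1 : (V i) \ (V' i) ⊆ (univ.filter fun j => i < j).biUnion fun j =>
        (V i).filter fun u => 2 * m * θ * (V j).card <
          (((V j).filter fun v => ¬ g u v).card : ℝ) := by
      intro u hu
      rw [Finset.mem_sdiff] at hu
      simp only [V', Finset.mem_filter, not_and, not_forall, not_le] at hu
      obtain ⟨j, hj, hj2⟩ := hu.2 hu.1
      simp only [Finset.mem_biUnion, Finset.mem_filter, Finset.mem_univ, true_and]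
      exact ⟨j, hj, hu.1, hj2⟩
    have h2 : (((V i) \ (V' i)).card : ℝ) ≤ ∑ j ∈ (univ.filter fun j => i < j),
        (((V i).filter fun u => 2 * m * θ * (V j).card <
          (((V j).filter fun v => ¬ g u v).card : ℝ)).card : ℝ) := by
      calc (((V i) \ (V' i)).card : ℝ) ≤ _ := Nat.cast_le.mpr (Finset.card_le_card h1)
        _ ≤ _ := by
          refine (Nat.cast_le.mpr Finset.card_biUnion_le).trans (le_of_eq ?_)
          push_cast
          rfl
    have h3 : ∀ j ∈ (univ.filter fun j => i < j),
        (((V i).filter fun u => 2 * m * θ * (V j).card <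
          (((V j).filter fun v => ¬ g u v).card : ℝ)).card : ℝ) ≤ (V i).card / (2 * m) := by
      intro j hj
      have hj : i < j := by simpa using hj
      have h4 := few' (V i) (V j) (fun u v => ¬ g u v) (t := 2 * m * θ * (V j).card)
        (by have := hVpos j; positivity) (hbad i j hj)
      refine h4.trans (le_of_eq ?_)
      have := hVpos j
      field_simp
    have h4 : (((V i) \ (V' i)).card : ℝ) ≤ (V i).card / 2 := by
      refine h2.trans ((Finset.sum_le_sum h3).trans ?_)
      rw [Finset.sum_const, nsmul_eq_mul]
      have h5 : ((univ.filter fun j => i < j).card : ℝ) ≤ m := by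
        have := Finset.card_le_univ (univ.filter fun j => i < j)
        rw [Fintype.card_fin] at this
        exact_mod_cast this
      calc ((univ.filter fun j => i < j).card : ℝ) * ((V i).card / (2 * m))
          ≤ m * ((V i).card / (2 * m)) := by gcongr
        _ = _ := by field_simp
    have h5 : (((V i) \ (V' i)).card : ℝ) + (V' i).card = (V i).card := by
      have := Finset.card_sdiff_add_card_eq_card (s := V' i) (t := V i)
        (Finset.filter_subset _ _)
      exact_mod_cast this
    linarith
  -- induction
  have key : ∀ i : ℕ, i ≤ m → ∃ S : Fin m → Finset α,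
      (∀ j : Fin m, j.1 < i → S j ⊆ V' j ∧ (S j).card = (2 * m - i) * d ∧ Cl r (S j)) ∧
      ∀ j k : Fin m, j < k → k.1 < i → ∀ u ∈ S j, ∀ v ∈ S k, g u v := by
    intro i
    induction i with
    | zero =>
      intro _
      exact ⟨fun _ => ∅, fun j hj => absurd hj (by omega), fun _ _ _ hk => absurd hk (by omega)⟩
    | succ i ih =>
      intro him
      obtain ⟨S, hS1, hS2⟩ := ih (by omega)
      let I : Fin m := ⟨i, by omega⟩
      have hm1 : (1 : ℝ) ≤ m := by exact_mod_cast (show 1 ≤ m by omega)
      let U : Finset α := (V' I).filter fun v => ∀ j : Fin m, j < I →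
        ¬ ((d : ℝ) < (((S j).filter fun u => ¬ g u v).card : ℝ))
      have hU : ((V I).card : ℝ) / 4 ≤ U.card := by
        have h1 : (V' I) \ U ⊆ (univ.filter fun j => j < I).biUnion fun j =>
            (V I).filter fun v => (d : ℝ) < (((S j).filter fun u => ¬ g u v).card : ℝ) := by
          intro v hv
          rw [Finset.mem_sdiff] at hv
          have hv1 := hv.1
          simp only [U, Finset.mem_filter, not_and, not_forall, not_not] at hv
          obtain ⟨j, hj, hj2⟩ := hv.2 hv.1
          simp only [Finset.mem_biUnion, Finset.mem_filter, Finset.mem_univ, true_and]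
          exact ⟨j, hj, (Finset.mem_filter.mp hv1).1, hj2⟩
        have h2 : (((V' I) \ U).card : ℝ) ≤ ∑ j ∈ (univ.filter fun j => j < I),
            (((V I).filter fun v => (d : ℝ) <
              (((S j).filter fun u => ¬ g u v).card : ℝ)).card : ℝ) := by
          calc (((V' I) \ U).card : ℝ) ≤ _ := Nat.cast_le.mpr (Finset.card_le_card h1)
            _ ≤ _ := by
              refine (Nat.cast_le.mpr Finset.card_biUnion_le).trans (le_of_eq ?_)
              push_cast
              rfl
        have h3 : ∀ j ∈ (univ.filter fun j => j < I),
            (((V I).filter fun v => (d : ℝ) <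
              (((S j).filter fun u => ¬ g u v).card : ℝ)).card : ℝ) ≤
              4 * m ^ 2 * θ * (V I).card := by
          intro j hj
          have hj : j < I := by simpa using hj
          have hS := hS1 j hj
          have h4 : ((((S j) ×ˢ (V I)).filter fun z => ¬ g z.1 z.2).card : ℝ) ≤
              4 * m ^ 2 * d * θ * (V I).card := by
            have e1 : ((((S j) ×ˢ (V I)).filter fun z => ¬ g z.1 z.2).card : ℝ) =
                ∑ u ∈ S j, (((V I).filter fun v => ¬ g u v).card : ℝ) := by
              rw [Finset.card_filter, Finset.sum_product]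
              push_cast
              refine Finset.sum_congr rfl fun v _ => ?_
              rw [Finset.card_filter]
              push_cast
              rfl
            rw [e1]
            calc ∑ u ∈ S j, (((V I).filter fun v => ¬ g u v).card : ℝ)
                ≤ ∑ u ∈ S j, 2 * m * θ * (V I).card :=
                  Finset.sum_le_sum fun u hu => (Finset.mem_filter.mp (hS.1 hu)).2 I hj
              _ = (S j).card * (2 * m * θ * (V I).card) := by
                  rw [Finset.sum_const, nsmul_eq_mul]
              _ ≤ (2 * m * d) * (2 * m * θ * (V I).card) := by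
                  have h6 : ((S j).card : ℝ) ≤ 2 * m * d := by
                    have : (S j).card ≤ 2 * m * d := by
                      rw [hS.2.1]
                      exact Nat.mul_le_mul_right _ (by omega)
                    exact_mod_cast this
                  have := hVpos I
                  gcongr
              _ = _ := by ring
          have hd0 : (0 : ℝ) < d := by exact_mod_cast hd
          have h5 := few (S j) (V I) (fun u v => ¬ g u v) hd0 h4
          refine h5.trans (le_of_eq ?_)
          field_simp
        have h4 : (((V' I) \ U).card : ℝ) ≤ (V I).card / 4 := by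
          refine h2.trans ((Finset.sum_le_sum h3).trans ?_)
          rw [Finset.sum_const, nsmul_eq_mul]
          have h5 : ((univ.filter fun j => j < I).card : ℝ) ≤ m := by
            have := Finset.card_le_univ (univ.filter fun j => j < I)
            rw [Fintype.card_fin] at this
            exact_mod_cast this
          have h6 := hVpos I
          calc ((univ.filter fun j => j < I).card : ℝ) * (4 * m ^ 2 * θ * (V I).card)
              ≤ m * (4 * m ^ 2 * θ * (V I).card) := by gcongr
            _ = (16 * m ^ 3 * θ) * (V I).card / 4 := by ring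
            _ ≤ 1 * (V I).card / 4 := by gcongr
            _ = _ := by ring
        have h5 : (((V' I) \ U).card : ℝ) + U.card = (V' I).card := by
          have := Finset.card_sdiff_add_card_eq_card (s := U) (t := V' I)
            (Finset.filter_subset _ _)
          exact_mod_cast this
        have := hV' I
        linarith
      -- the removed sets
      have hF : ∀ v ∈ U, ∀ j : Fin m, ∃ F : Finset α, j < I →
          F ∈ powersetCard d (S j) ∧ ((S j).filter fun u => ¬ g u v) ⊆ F := by
        intro v hv j
        by_cases hj : j < I
        · have h1 : ((S j).filter fun u => ¬ g u v).card ≤ d := by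
            have := (Finset.mem_filter.mp hv).2 j hj
            have := not_lt.mp this
            exact_mod_cast this
          have hS := hS1 j hj
          have h2 : d ≤ (S j).card := by
            rw [hS.2.1]
            calc d = 1 * d := (one_mul d).symm
              _ ≤ _ := Nat.mul_le_mul_right _ (by omega)
          obtain ⟨F, h3, h4, h5⟩ := Finset.exists_subsuperset_card_eq
            (Finset.filter_subset (fun u => ¬ g u v) (S j)) h1 h2
          exact ⟨F, fun _ => ⟨Finset.mem_powersetCard.mpr ⟨h4, h5⟩, h3⟩⟩
        · exact ⟨∅, fun h => absurd h hj⟩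
      choose! F hF using hF
      let F' : α → Fin m → Finset α := fun v j => if j < I then F v j else ∅
      let P : Finset (Fin m → Finset α) := Fintype.piFinset fun j =>
        if j < I then powersetCard d (S j) else {∅}
      have hmaps : ∀ v ∈ U, F' v ∈ P := by
        intro v hv
        rw [Fintype.mem_piFinset]
        intro j
        by_cases hj : j < I
        · simp only [F', if_pos hj]
          exact (hF v hv j hj).1
        · simp only [F', if_neg hj, Finset.mem_singleton]
      have hPcard : P.card ≤ ((2 * m * d).choose d) ^ m := by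
        rw [Fintype.card_piFinset]
        calc ∏ j : Fin m, (if j < I then powersetCard d (S j) else {∅}).card
            ≤ ∏ _j : Fin m, (2 * m * d).choose d := by
              refine Finset.prod_le_prod' fun j _ => ?_
              by_cases hj : j < I
              · rw [if_pos hj, Finset.card_powersetCard]
                refine Nat.choose_le_choose _ ?_
                rw [(hS1 j hj).2.1]
                exact Nat.mul_le_mul_right _ (by omega)
              · rw [if_neg hj, Finset.card_singleton]
                exact Nat.choose_pos (by nlinarith)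
          _ = _ := by simp
      have hPn : P.Nonempty := by
        have hUn : U.Nonempty := by
          rw [← Finset.card_pos]
          have h1 := hVpos I
          have : (0 : ℝ) < U.card := by linarith
          exact_mod_cast this
        obtain ⟨v, hv⟩ := hUn
        exact ⟨_, hmaps v hv⟩
      have hmul : P.card * (2 * m * d + l).choose (2 * m * d) ≤ U.card := by
        have h1 : P.card * (2 * m * d + l).choose (2 * m * d) ≤
            ((2 * m * d).choose d) ^ m * (2 * m * d + l).choose (2 * m * d) :=
          Nat.mul_le_mul_right _ hPcard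
        have h2 : (((4 * (((2 * m * d).choose d) ^ m *
          (2 * m * d + l).choose (2 * m * d)) : ℕ)) : ℝ) ≤ ((V I).card : ℝ) :=
          Nat.cast_le.mpr (hbig I)
        have h3 : (((((2 * m * d).choose d) ^ m *
          (2 * m * d + l).choose (2 * m * d)) : ℕ) : ℝ) ≤ (U.card : ℝ) := by
          push_cast at h2 ⊢
          linarith
        exact h1.trans (by exact_mod_cast h3)
      obtain ⟨Fs, hFs, hcl⟩ :=
        Finset.exists_le_card_fiber_of_mul_le_card_of_maps_to hmaps hPn hmul
      rcases ramsey r hr _ (2 * m * d) l rfl _ hcl with ⟨R, hR, hRc, hR2⟩ | ⟨R, hR, hRc, hR2⟩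
      swap
      · exfalso
        obtain ⟨R', hR', hR'c⟩ := Finset.exists_subset_card_eq (s := R) (n := l) (by omega)
        exact hblue ⟨R', hR'c, hR2.mono hR'⟩
      have hle : (2 * m - (i + 1)) * d ≤ R.card := by
        rw [hRc]
        have : (2 * m - (i + 1)) * d ≤ 2 * m * d := Nat.mul_le_mul_right _ (by omega)
        omega
      obtain ⟨R', hR', hR'c⟩ := Finset.exists_subset_card_eq hle
      have hRU : ∀ v ∈ R', v ∈ U ∧ F' v = Fs := fun v hv => by
        have := hR (hR' hv)
        rwa [Finset.mem_filter] at this
      refine ⟨fun j => if j < I then S j \ Fs j else R', ?_, ?_⟩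
      · intro j hj
        by_cases hjI : j < I
        · simp only [if_pos hjI]
          have hS := hS1 j hjI
          have hFj : Fs j ∈ powersetCard d (S j) := by
            have := Fintype.mem_piFinset.mp hFs j
            rwa [if_pos hjI] at this
          rw [Finset.mem_powersetCard] at hFj
          refine ⟨Finset.sdiff_subset.trans hS.1, ?_, hS.2.2.mono Finset.sdiff_subset⟩
          rw [Finset.card_sdiff_of_subset hFj.1, hS.2.1, hFj.2]
          have : 2 * m - i = (2 * m - (i + 1)) + 1 := by omega
          rw [this, Nat.add_mul, one_mul, Nat.add_sub_cancel]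
        · have hjI' : j = I := by
            refine Fin.ext ?_
            have : ¬ j.1 < i := hjI
            show j.1 = i
            omega
          simp only [if_neg hjI]
          refine ⟨?_, hR'c, hR2.mono hR'⟩
          rw [hjI']
          exact fun v hv => (Finset.mem_filter.mp (hRU v hv).1).1
      · intro j k hjk hk u hu v hv
        have hjI : j < I := by
          have : j.1 < k.1 := hjk
          show j.1 < i
          omega
        simp only [if_pos hjI, Finset.mem_sdiff] at hu
        by_cases hkI : k < I
        · simp only [if_pos hkI, Finset.mem_sdiff] at hv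
          exact hS2 j k hjk hkI u hu.1 v hv.1
        · simp only [if_neg hkI] at hv
          by_contra hg
          have h1 := hRU v hv
          have h2 := (hF v h1.1 j hjI).2 (Finset.mem_filter.mpr ⟨hu.1, hg⟩)
          have h3 : Fs j = F v j := by
            rw [← h1.2]
            simp only [F', if_pos hjI]
          exact hu.2 (by rw [h3]; exact h2)
  obtain ⟨S, hS1, hS2⟩ := key m le_rfl
  refine ⟨S, fun i => ?_, fun i j hij => hS2 i j hij j.2⟩
  have := hS1 i i.2
  refine ⟨this.1.trans (Finset.filter_subset _ _), ?_, this.2.2⟩
  rw [this.2.1]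
  congr 1
  omega

end Pool.Agent.H136.GB
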