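import Pool.Agent.H136.GB.RC

set_option autoImplicit false

namespace Pool.Agent.H136.GB

open MeasureTheory Finset Filter Pool.Agent.H.MP_eaf82e_pr

/-- The error of a step function. -/
def er {k : ℕ} (W : ℝ → ℝ → ℝ) (q : ℝ → Fin k) (c : Fin k → Fin k → ℝ) (z : ℝ × ℝ) : ℝ :=
  |W z.1 z.2 - c (q z.1) (q z.2)|

lemma er_BM {k : ℕ} {W : ℝ → ℝ → ℝ} (hW : Measurable (Function.uncurry W))
    (h0 : ∀ x y, 0 ≤ W x y) (h1 : ∀ x y, W x y ≤ 1) {q : ℝ → Fin k} (hq : Measurable q)
    (c : Fin k → Fin k → ℝ) : BM (er W q c) := by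
  have hB : BM (fun z : ℝ × ℝ => W z.1 z.2) :=
    BM.of_bounds hW (fun z => h0 z.1 z.2) (fun z => h1 z.1 z.2)
  exact hB.abs_sub (BM.step hq c)

/-- **Selection of cells.** -/
theorem blocks {W : ℝ → ℝ → ℝ} (hW : Measurable (Function.uncurry W))
    (h0 : ∀ x y, 0 ≤ W x y) (h1 : ∀ x y, W x y ≤ 1) {k : ℕ} {q : ℝ → Fin k}
    (hq : Measurable q) (c : Fin k → Fin k → ℝ) {δ η τ : ℝ}
    (hδ : B (er W q c) lam lam ≤ δ) (hη : 0 < η) (hτ : 0 ≤ τ) {m0 : ℕ}
    (hbd : m0 * (k * τ) + m0 ^ 2 * (δ / η) < 1) :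
    ∃ f : Fin m0 → Fin k, (∀ i, τ ≤ lam.real (q ⁻¹' {f i})) ∧ ∀ i j, i < j →
      B (er W q c) (lam.restrict (q ⁻¹' {f i})) (lam.restrict (q ⁻¹' {f j})) ≤
        η * lam.real (q ⁻¹' {f i}) * lam.real (q ⁻¹' {f j}) := by
  classical
  have hF := er_BM hW h0 h1 hq c
  have hFn : ∀ z, 0 ≤ er W q c z := fun z => abs_nonneg _
  have hδ0 : 0 ≤ δ := (B_nonneg hFn).trans hδ
  let μ : Fin k → ℝ := fun a => lam.real (q ⁻¹' {a})
  let E : Fin k → Fin k → ℝ := fun a b =>
    B (er W q c) (lam.restrict (q ⁻¹' {a})) (lam.restrict (q ⁻¹' {b}))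
  have hE0 : ∀ a b, 0 ≤ E a b := fun a b => B_nonneg hFn
  have hμ0 : ∀ a, 0 ≤ μ a := fun a => measureReal_nonneg
  have hsum : ∑ a, ∑ b, E a b = B (er W q c) lam lam := by
    have := B_sum hF (univ : Finset (Fin k)) (univ : Finset (Fin k))
      (fun a => lam.restrict (q ⁻¹' {a})) (fun a => lam.restrict (q ⁻¹' {a}))
    rw [sum_cells hq lam] at this
    exact this.symm
  by_contra hcon
  let E1 : Fin m0 → Set (Fin m0 → ℝ) := fun i => {x | μ (q (x i)) < τ}
  let E2 : Fin m0 × Fin m0 → Set (Fin m0 → ℝ) := fun ij =>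
    {x | η * μ (q (x ij.1)) * μ (q (x ij.2)) < E (q (x ij.1)) (q (x ij.2))}
  let Pr : Finset (Fin m0 × Fin m0) := univ.filter fun ij => ij.1 < ij.2
  have hsub : (Set.univ : Set (Fin m0 → ℝ)) ⊆
      (⋃ i ∈ (univ : Finset (Fin m0)), E1 i) ∪ (⋃ ij ∈ Pr, E2 ij) := by
    intro x _
    by_contra hx
    simp only [Set.mem_union, Set.mem_iUnion, not_or, not_exists] at hx
    refine hcon ⟨fun i => q (x i), fun i => ?_, fun i j hij => ?_⟩
    · have := hx.1 i (Finset.mem_univ _)
      simpa only [E1, Set.mem_ofPred_eq, not_lt] using this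
    · have h2 := hx.2 (i, j) (Finset.mem_filter.mpr ⟨Finset.mem_univ _, hij⟩)
      simpa only [E2, Set.mem_ofPred_eq, not_lt] using h2
  have hE1 : ∀ i, (mun m0).real (E1 i) ≤ k * τ := by
    intro i
    have h2 : (mun m0) (E1 i) ≤ lam {s | μ (q s) < τ} := by
      have hmp := measurePreserving_eval (fun _ : Fin m0 => lam) i
      have := Measure.le_map_apply (μ := mun m0) hmp.measurable.aemeasurable
        {s | μ (q s) < τ}
      have h3 : (mun m0).map (Function.eval i) = lam := hmp.map_eq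
      rw [h3] at this
      exact this
    have h3 : (mun m0).real (E1 i) ≤ lam.real {s | μ (q s) < τ} :=
      ENNReal.toReal_mono (measure_ne_top _ _) h2
    have h4 : {s | μ (q s) < τ} ⊆ ⋃ a ∈ (univ.filter fun a : Fin k => μ a < τ), q ⁻¹' {a} := by
      intro s hs
      simp only [Set.mem_iUnion]
      exact ⟨q s, Finset.mem_filter.mpr ⟨Finset.mem_univ _, hs⟩, rfl⟩
    calc (mun m0).real (E1 i) ≤ lam.real {s | μ (q s) < τ} := h3
      _ ≤ lam.real (⋃ a ∈ (univ.filter fun a : Fin k => μ a < τ), q ⁻¹' {a}) :=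
          measureReal_mono h4 (measure_ne_top _ _)
      _ ≤ ∑ a ∈ (univ.filter fun a : Fin k => μ a < τ), lam.real (q ⁻¹' {a}) :=
          measureReal_biUnion_finset_le _ _
      _ ≤ ∑ _a ∈ (univ.filter fun a : Fin k => μ a < τ), τ :=
          Finset.sum_le_sum fun a ha => (Finset.mem_filter.mp ha).2.le
      _ = ((univ.filter fun a : Fin k => μ a < τ).card : ℝ) * τ := by
          rw [Finset.sum_const, nsmul_eq_mul]
      _ ≤ k * τ := by
          have : ((univ.filter fun a : Fin k => μ a < τ).card : ℝ) ≤ k := by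
            have := Finset.card_le_univ (univ.filter fun a : Fin k => μ a < τ)
            rw [Fintype.card_fin] at this
            exact_mod_cast this
          gcongr
  have hE2 : ∀ ij ∈ Pr, (mun m0).real (E2 ij) ≤ δ / η := by
    intro ij hij
    have hij' : ij.1 < ij.2 := (Finset.mem_filter.mp hij).2
    let G : Fin k → Fin k → ℝ := fun a b => if η * μ a * μ b < E a b then 1 else 0
    have hms : MeasurableSet {z : ℝ × ℝ | η * μ (q z.1) * μ (q z.2) < E (q z.1) (q z.2)} := by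
      have : {z : ℝ × ℝ | η * μ (q z.1) * μ (q z.2) < E (q z.1) (q z.2)} =
          (fun z : ℝ × ℝ => (q z.1, q z.2)) ⁻¹' {ab | η * μ ab.1 * μ ab.2 < E ab.1 ab.2} := rfl
      rw [this]
      exact ((hq.comp measurable_fst).prodMk (hq.comp measurable_snd))
        (Set.toFinite _).measurableSet
    have h2 : (mun m0) (E2 ij) ≤ (lam.prod lam)
        {z : ℝ × ℝ | η * μ (q z.1) * μ (q z.2) < E (q z.1) (q z.2)} := by
      have := Measure.le_map_apply (μ := mun m0) (f := fun x : Fin m0 → ℝ => (x ij.1, x ij.2))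
        ((measurable_pi_apply _).prodMk (measurable_pi_apply _)).aemeasurable
        {z : ℝ × ℝ | η * μ (q z.1) * μ (q z.2) < E (q z.1) (q z.2)}
      rw [pair_map hij'.ne] at this
      exact this
    have h3 : (mun m0).real (E2 ij) ≤ (lam.prod lam).real
        {z : ℝ × ℝ | η * μ (q z.1) * μ (q z.2) < E (q z.1) (q z.2)} :=
      ENNReal.toReal_mono (measure_ne_top _ _) h2
    have h4 : (lam.prod lam).real
        {z : ℝ × ℝ | η * μ (q z.1) * μ (q z.2) < E (q z.1) (q z.2)} =
        B (fun z => G (q z.1) (q z.2)) lam lam := by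
      unfold B
      rw [← integral_indicator_one hms]
      refine integral_congr_ae (Filter.Eventually.of_forall fun z => ?_)
      simp only [G, Set.indicator, Set.mem_ofPred_eq, Pi.one_apply]
    rw [B_step hq G] at h4
    refine h3.trans (h4.le.trans ?_)
    rw [le_div_iff₀ hη]
    calc (∑ a, ∑ b, lam.real (q ⁻¹' {a}) * lam.real (q ⁻¹' {b}) * G a b) * η
        = ∑ a, ∑ b, lam.real (q ⁻¹' {a}) * lam.real (q ⁻¹' {b}) * G a b * η := by
          rw [Finset.sum_mul]
          exact Finset.sum_congr rfl fun a _ => Finset.sum_mul _ _ _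
      _ ≤ ∑ a, ∑ b, E a b := by
          refine Finset.sum_le_sum fun a _ => Finset.sum_le_sum fun b _ => ?_
          simp only [G]
          split_ifs with hab
          · have h5 : lam.real (q ⁻¹' {a}) * lam.real (q ⁻¹' {b}) * 1 * η =
                η * μ a * μ b := by
              simp only [μ]; ring
            rw [h5]
            exact hab.le
          · simp only [mul_zero, zero_mul]
            exact hE0 a b
      _ = B (er W q c) lam lam := hsum
      _ ≤ δ := hδ
  have hPr : (Pr.card : ℝ) ≤ m0 ^ 2 := by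
    have h1 : Pr.card ≤ m0 ^ 2 := by
      calc Pr.card ≤ Fintype.card (Fin m0 × Fin m0) := Finset.card_le_univ _
        _ = m0 ^ 2 := by simp [sq]
    exact_mod_cast h1
  have htot : (1 : ℝ) ≤ m0 * (k * τ) + m0 ^ 2 * (δ / η) := by
    calc (1 : ℝ) = (mun m0).real Set.univ := by simp
      _ ≤ (mun m0).real ((⋃ i ∈ (univ : Finset (Fin m0)), E1 i) ∪ (⋃ ij ∈ Pr, E2 ij)) :=
        measureReal_mono hsub
      _ ≤ (mun m0).real (⋃ i ∈ (univ : Finset (Fin m0)), E1 i) +
          (mun m0).real (⋃ ij ∈ Pr, E2 ij) := measureReal_union_le _ _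
      _ ≤ ∑ i : Fin m0, (mun m0).real (E1 i) + ∑ ij ∈ Pr, (mun m0).real (E2 ij) :=
          add_le_add (measureReal_biUnion_finset_le _ _) (measureReal_biUnion_finset_le _ _)
      _ ≤ ∑ _i : Fin m0, (k * τ) + ∑ _ij ∈ Pr, (δ / η) :=
          add_le_add (Finset.sum_le_sum fun i _ => hE1 i) (Finset.sum_le_sum hE2)
      _ = m0 * (k * τ) + Pr.card * (δ / η) := by simp
      _ ≤ _ := by
          have : 0 ≤ δ / η := by positivity
          gcongr
  linarith

end Pool.Agent.H136.GB
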