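import Pool.Agent.H136.GB.ST

set_option autoImplicit false

namespace Pool.Agent.H136.GB

open MeasureTheory Finset Pool.Agent.H.MP_eaf82e_pr

lemma ES_card2 {n : ℕ} (S : Finset (Fin n)) : (ES S).card ≤ S.card.choose 2 := by
  classical
  rw [← Finset.card_powersetCard]
  refine Finset.card_le_card_of_injOn (fun e => {e.1.1, e.1.2}) (fun e he => ?_) ?_
  · simp only [ES, Finset.coe_filter, Finset.mem_univ, true_and, Set.mem_ofPred_eq] at he
    simp only [Finset.mem_coe, Finset.mem_powersetCard]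
    refine ⟨?_, Finset.card_pair e.2.ne⟩
    intro u hu
    simp only [Finset.mem_insert, Finset.mem_singleton] at hu
    rcases hu with rfl | rfl
    · exact he.1
    · exact he.2
  · intro e _ e' _ h
    have h' : ({e.1.1, e.1.2} : Finset (Fin n)) = {e'.1.1, e'.1.2} := h
    have h1 : e.1.1 ∈ ({e'.1.1, e'.1.2} : Finset (Fin n)) := by rw [← h']; simp
    have h2 : e.1.2 ∈ ({e'.1.1, e'.1.2} : Finset (Fin n)) := by rw [← h']; simp
    simp only [Finset.mem_insert, Finset.mem_singleton] at h1 h2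
    have h3 := e.2
    have h4 := e'.2
    refine Subtype.ext (Prod.ext ?_ ?_)
    · rcases h1 with h1 | h1
      · exact h1
      · rcases h2 with h2 | h2
        · rw [h1, h2] at h3
          exact absurd h4 h3.not_gt
        · rw [h1, h2] at h3
          exact absurd h3 (lt_irrefl _)
    · rcases h2 with h2 | h2
      · rcases h1 with h1 | h1
        · rw [h1, h2] at h3
          exact absurd h3 (lt_irrefl _)
        · rw [h1, h2] at h3
          exact absurd h4 h3.not_gt
      · exact h2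

lemma ES_univ' {n : ℕ} : ES (univ : Finset (Fin n)) = univ := by
  ext e; simp [ES]

/-- All pairs in `S` are non-edges. -/
def Blu {n : ℕ} (ω : Ed n → Bool) (S : Finset (Fin n)) : Prop := ∀ e ∈ ES S, ω e = false

lemma Prb_cpl (W : ℝ → ℝ → ℝ) (n : ℕ) (E : (Ed n → Bool) → Prop) :
    Prb (cpl W) n E = Prb W n (fun ω => E (fun e => !(ω e))) := by
  unfold Prb
  refine lintegral_congr fun x => ?_
  refine Fintype.sum_equiv (Equiv.arrowCongr (Equiv.refl (Ed n)) Equiv.boolNot) _ _ fun ω => ?_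
  have e1 : wt (px (cpl W) x) ω = wt (px W x)
      ((Equiv.arrowCongr (Equiv.refl (Ed n)) Equiv.boolNot) ω) := by
    refine Finset.prod_congr rfl fun e _ => ?_
    cases hω : ω e <;> simp [Equiv.arrowCongr, hω, px, cpl]
  rw [e1]
  congr 2
  simp [Equiv.arrowCongr]

/-- Many blue cliques in small samples give large blue cliques in large samples. -/
theorem caseB {W : ℝ → ℝ → ℝ} (hW : Measurable (Function.uncurry W)) (h0 : ∀ x y, 0 ≤ W x y)
    (h1 : ∀ x y, W x y ≤ 1) {l N n s : ℕ} (h : l * N ≤ n) (hN : 2 ≤ N) {Λ c : ℝ} (hΛ : 1 ≤ Λ)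
    (hc : 0 < c) (hb : ENNReal.ofReal c ≤ ∫⁻ y, PW (cpl W) univ y ∂(mun l))
    (hs : 1 < Λ ^ s * c) :
    ENNReal.ofReal (1 - l * Λ / N) ≤
      Prb W n (fun ω => ∃ S : Finset (Fin n), l < S.card + s ∧ Blu ω S) := by
  have hβ0 : (∫⁻ y, PW (cpl W) univ y ∂(mun l)) ≠ 0 :=
    (lt_of_lt_of_le (ENNReal.ofReal_pos.mpr hc) hb).ne'
  have h2 := MV (W := cpl W) (meas_cpl hW) (fun x y => sub_nonneg.mpr (h1 x y))
    (fun x y => by simp only [cpl]; linarith [h0 x y]) h hN (fun _ => 1) measurable_const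
    (fun _ => le_rfl) hΛ (β := ∫⁻ y, PW (cpl W) univ y ∂(mun l))
    (by simp only [one_mul, ES_univ']) hβ0 (s := s) (by
      intro A ζ hA
      calc DD (cpl W) (fun _ => 1) univ A ζ ≤ ∫⁻ _, 1 ∂(mun l) := by
            unfold DD
            refine lintegral_mono fun z => ?_
            simp only [one_mul]
            exact PW_le_one (fun x y => by simp only [cpl]; linarith [h0 x y]) _ _
        _ = ENNReal.ofReal 1 := by simp
        _ < ENNReal.ofReal (Λ ^ A.card * c) := by
            refine (ENNReal.ofReal_lt_ofReal_iff (by positivity)).mpr ?_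
            refine lt_of_lt_of_le hs ?_
            gcongr
        _ = ENNReal.ofReal (Λ ^ A.card) * ENNReal.ofReal c :=
            ENNReal.ofReal_mul (by positivity)
        _ ≤ _ := mul_le_mul' le_rfl hb)
  rw [Prb_cpl] at h2
  refine h2.trans (Prb_mono W n ?_)
  rintro ω ⟨S, hS, hR⟩
  refine ⟨S, hS, fun e he => ?_⟩
  have := hR e he
  simpa using this

/-- Many structures in small samples give large red cliques in large samples. -/
theorem caseA {W : ℝ → ℝ → ℝ} (hW : Measurable (Function.uncurry W)) (h0 : ∀ x y, 0 ≤ W x y)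
    (h1 : ∀ x y, W x y ≤ 1) {m q N n s : ℕ} (h : m * q * N ≤ n) (hN : 2 ≤ N)
    {A : Fin m → Set ℝ} (hA : ∀ i, MeasurableSet (A i)) {p : ℝ} (hp0 : 0 < p) (hp1 : p ≤ 1)
    {Λ c : ℝ} (hΛ : 1 ≤ Λ) (hc : 0 < c)
    (hb : ENNReal.ofReal c ≤ ∫⁻ y, ph q W A p y * PW W (wi m q) y ∂(mun (m * q)))
    (hs : ∀ a : ℕ, s ≤ a → a ≤ m * q → 1 < Λ ^ a * p ^ (a.choose 2) * c) :
    ENNReal.ofReal (1 - (m * q : ℕ) * Λ / N) ≤
      Prb W n (fun ω => ∃ S : Finset (Fin n), m * q < S.card + s ∧ Red ω S) := by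
  classical
  let R : (Fin (m * q) → ℝ) → Ed (m * q) → ENNReal := fun y e =>
    ENNReal.ofReal (p / max (px W y e) p)
  have hR1 : ∀ y e, R y e ≤ 1 := fun y e =>
    ENNReal.ofReal_le_one.mpr ((div_le_one (lt_max_of_lt_right hp0)).mpr (le_max_right _ _))
  have hRW : ∀ y e, R y e * ENNReal.ofReal (px W y e) ≤ ENNReal.ofReal p := by
    intro y e
    have h2 : 0 < max (px W y e) p := lt_max_of_lt_right hp0
    rw [← ENNReal.ofReal_mul (div_nonneg hp0.le h2.le)]
    refine ENNReal.ofReal_le_ofReal ?_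
    rw [div_mul_eq_mul_div, div_le_iff₀ h2]
    exact mul_le_mul_of_nonneg_left (le_max_left _ _) hp0.le
  have hRW2 : ∀ y e, p ≤ px W y e → R y e * ENNReal.ofReal (px W y e) = ENNReal.ofReal p := by
    intro y e h2
    simp only [R]
    have h3 : 0 < px W y e := lt_of_lt_of_le hp0 h2
    rw [max_eq_left h2, ← ENNReal.ofReal_mul (div_nonneg hp0.le h3.le)]
    congr 1
    exact div_mul_cancel₀ _ h3.ne'
  let cr : Finset (Ed (m * q)) := univ \ wi m q
  let φ : (Fin (m * q) → ℝ) → ENNReal := fun y => ph q W A p y * ∏ e ∈ cr, R y e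
  have hRm : ∀ e, Measurable (fun y => R y e) := fun e =>
    (measurable_const.div ((meas_px hW e).max measurable_const)).ennreal_ofReal
  have hφ : Measurable φ := (meas_ph q hW hA p).mul
    (Finset.measurable_fun_prod _ fun e _ => hRm e)
  have hph1 : ∀ y, ph q W A p y ≤ 1 := by
    intro y
    unfold ph idc
    split_ifs <;> simp
  have hφ1 : ∀ y, φ y ≤ 1 := fun y => by
    calc φ y ≤ 1 * 1 := mul_le_mul' (hph1 y) (Finset.prod_le_one' fun e _ => hR1 y e)
      _ = 1 := one_mul 1
  set P := ENNReal.ofReal p with hP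
  have hP0 : P ≠ 0 := by
    rw [hP, Ne, ENNReal.ofReal_eq_zero, not_le]; exact hp0
  have hPt : P ≠ ⊤ := ENNReal.ofReal_ne_top
  set β0 := ∫⁻ y, ph q W A p y * PW W (wi m q) y ∂(mun (m * q)) with hβ0
  have hβ : P ^ cr.card * β0 = ∫⁻ y, φ y * PW W (ES univ) y ∂(mun (m * q)) := by
    rw [hβ0, ← lintegral_const_mul' _ _ (ENNReal.pow_ne_top hPt)]
    refine lintegral_congr fun y => ?_
    have e1 : (ES univ : Finset (Ed (m * q))) = wi m q ∪ cr := by
      rw [ES_univ', Finset.union_sdiff_of_subset (Finset.subset_univ _)]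
    rw [e1, PW_union W Finset.disjoint_sdiff]
    simp only [φ]
    by_cases h2 : (∀ a, y a ∈ A a.divNat) ∧ ∀ e : Ed (m * q), e.1.1.divNat ≠ e.1.2.divNat →
      p ≤ W (y e.1.1) (y e.1.2)
    · have e2 : (∏ e ∈ cr, R y e) * PW W cr y = P ^ cr.card := by
        rw [PW, ← Finset.prod_mul_distrib, ← Finset.prod_const]
        refine Finset.prod_congr rfl fun e he => hRW2 y e (h2.2 e ?_)
        simpa [cr, wi] using he
      rw [ph, idc_pos h2, one_mul, one_mul, ← e2]
      ring
    · rw [ph, idc_neg h2]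
      simp
  have hβ00 : P ^ cr.card * β0 ≠ 0 :=
    mul_ne_zero (pow_ne_zero _ hP0) (lt_of_lt_of_le (ENNReal.ofReal_pos.mpr hc) hb).ne'
  have h2 := MV (W := W) hW h0 h1 h hN φ hφ hφ1 hΛ hβ hβ00 (s := s) (by
    intro B ζ hB
    have hBK : B.card ≤ m * q := by simpa using Finset.card_le_univ B
    have e3 : DD W φ univ B ζ ≤ P ^ (cr \ ES B).card := by
      calc DD W φ univ B ζ ≤ ∫⁻ _, P ^ (cr \ ES B).card ∂(mun (m * q)) := by
            unfold DD
            refine lintegral_mono fun z => ?_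
            simp only []
            generalize B.piecewise ζ z = y
            calc φ y * PW W (ES univ \ ES B) y
                ≤ (∏ e ∈ cr \ ES B, R y e) * PW W (cr \ ES B) y := by
                  refine mul_le_mul' ?_ (PW_anti h1 ?_ y)
                  · calc φ y ≤ 1 * ∏ e ∈ cr, R y e := mul_le_mul' (hph1 y) le_rfl
                      _ = ∏ e ∈ cr, R y e := one_mul _
                      _ ≤ _ := Finset.prod_le_prod_of_subset_of_le_one' Finset.sdiff_subset
                        fun e _ _ => hR1 y e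
                  · rw [ES_univ']
                    exact Finset.sdiff_subset_sdiff (Finset.subset_univ _) le_rfl
              _ = ∏ e ∈ cr \ ES B, (R y e * ENNReal.ofReal (px W y e)) := by
                  rw [PW, Finset.prod_mul_distrib]
              _ ≤ ∏ _e ∈ cr \ ES B, P := Finset.prod_le_prod' fun e _ => hRW y e
              _ = _ := Finset.prod_const _
        _ = _ := by simp
    refine lt_of_le_of_lt e3 ?_
    have e4 : (cr \ ES B).card + (cr ∩ ES B).card = cr.card :=
      Finset.card_sdiff_add_card_inter cr (ES B)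
    have e5 : (cr ∩ ES B).card ≤ B.card.choose 2 :=
      (Finset.card_le_card Finset.inter_subset_right).trans (ES_card2 B)
    have e6 : P ^ (B.card.choose 2) ≤ P ^ (cr ∩ ES B).card :=
      pow_le_pow_right_of_le_one' (ENNReal.ofReal_le_one.mpr hp1) e5
    have e7 : (1 : ENNReal) < ENNReal.ofReal (Λ ^ B.card) * P ^ (B.card.choose 2) * β0 := by
      calc (1 : ENNReal) = ENNReal.ofReal 1 := by simp
        _ < ENNReal.ofReal (Λ ^ B.card * p ^ (B.card.choose 2) * c) :=
            (ENNReal.ofReal_lt_ofReal_iff (by positivity)).mpr (hs _ hB hBK)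
        _ = ENNReal.ofReal (Λ ^ B.card) * P ^ (B.card.choose 2) * ENNReal.ofReal c := by
            rw [ENNReal.ofReal_mul (by positivity), ENNReal.ofReal_mul (by positivity),
              ENNReal.ofReal_pow hp0.le]
        _ ≤ _ := mul_le_mul' le_rfl hb
    have hX0 : P ^ (cr \ ES B).card ≠ 0 := pow_ne_zero _ hP0
    have hXt : P ^ (cr \ ES B).card ≠ ⊤ := ENNReal.pow_ne_top hPt
    calc P ^ (cr \ ES B).card = P ^ (cr \ ES B).card * 1 := (mul_one _).symm
      _ < P ^ (cr \ ES B).card *
          (ENNReal.ofReal (Λ ^ B.card) * P ^ (B.card.choose 2) * β0) :=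
          ENNReal.mul_lt_mul_right hX0 hXt e7
      _ ≤ P ^ (cr \ ES B).card *
          (ENNReal.ofReal (Λ ^ B.card) * P ^ (cr ∩ ES B).card * β0) := by gcongr
      _ = ENNReal.ofReal (Λ ^ B.card) * (P ^ cr.card * β0) := by
          rw [← e4, pow_add]
          ring)
  exact h2

end Pool.Agent.H136.GB
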