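import Pool.Agent.H136.GB.CA

set_option autoImplicit false

namespace Pool.Agent.H136.GB

open MeasureTheory Finset Pool.Agent.H.MP_eaf82e_pr

lemma choose_exp {a b : ℕ} {t : ℝ} (ht : 0 < t) (h : (a : ℝ) ≤ t * b) :
    (a.choose b : ℝ) ≤ Real.exp (b * (Real.log t + 1)) := by
  have h1 : (a.choose b : ℝ) ≤ (a : ℝ) ^ b / b.factorial := Nat.choose_le_pow_div b a
  have h2 : (b : ℝ) ^ b / b.factorial ≤ Real.exp b :=
    Real.pow_div_factorial_le_exp b (Nat.cast_nonneg b) b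
  calc (a.choose b : ℝ) ≤ (a : ℝ) ^ b / b.factorial := h1
    _ ≤ (t * b) ^ b / b.factorial := by gcongr
    _ = t ^ b * ((b : ℝ) ^ b / b.factorial) := by rw [mul_pow]; ring
    _ ≤ t ^ b * Real.exp b := by gcongr
    _ = Real.exp (b * (Real.log t + 1)) := by
        rw [mul_add, mul_one, Real.exp_add]
        congr 1
        rw [mul_comm, Real.exp_mul, Real.exp_log ht, Real.rpow_natCast]

lemma quarter {x y : ENNReal} (h : ENNReal.ofReal (1 / 2) ≤ x + y) :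
    ENNReal.ofReal (1 / 4) ≤ x ∨ ENNReal.ofReal (1 / 4) ≤ y := by
  by_contra hcon
  rw [not_or, not_le, not_le] at hcon
  have h1 : x + y < ENNReal.ofReal (1 / 4) + ENNReal.ofReal (1 / 4) :=
    ENNReal.add_lt_add hcon.1 hcon.2
  rw [← ENNReal.ofReal_add (by norm_num) (by norm_num)] at h1
  norm_num at h1 h
  exact absurd h (not_le.mpr h1)

lemma quarter_div {n : ℕ} (hn : 0 < n) {k : ℕ} {y : ENNReal}
    (h : ENNReal.ofReal (1 / 4) ≤ (n : ENNReal) ^ k * y) :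
    ENNReal.ofReal (1 / 4 / (n : ℝ) ^ k) ≤ y := by
  have hn' : (0 : ℝ) < (n : ℝ) ^ k := by positivity
  rw [ENNReal.ofReal_div_of_pos hn', ENNReal.ofReal_pow (Nat.cast_nonneg n),
    ENNReal.ofReal_natCast]
  refine ENNReal.div_le_of_le_mul' h

/-- The combination of the two cases. -/
theorem core {W : ℝ → ℝ → ℝ} (hW : Measurable (Function.uncurry W)) (h0 : ∀ x y, 0 ≤ W x y)
    (h1 : ∀ x y, W x y ≤ 1) {n m n1 d l : ℕ} {A : Fin m → Set ℝ}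
    (hA : ∀ i, MeasurableSet (A i)) {p θ : ℝ} (hp0 : 0 < p) (hp1 : p ≤ 1) (hm : 0 < m)
    (hd : 0 < d) (hθ0 : 0 < θ) (hθ : 256 * (m : ℝ) ^ 5 * θ ≤ 1)
    (hbad : ∀ i j, i < j → (lam.prod lam).real
      {z : ℝ × ℝ | z.1 ∈ A i ∧ z.2 ∈ A j ∧ W z.1 z.2 < p} ≤ θ * lam.real (A i) * lam.real (A j))
    (hn1 : ∀ i, 16 * (m : ℝ) ≤ n1 * lam.real (A i) ^ 2)
    (hbig : ∀ i, (4 * (((2 * m * d).choose d) ^ m * (2 * m * d + l).choose (2 * m * d)) : ℕ) ≤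
      (n1 : ℝ) * lam.real (A i) / 2)
    {Λ : ℝ} (hΛ : 1 ≤ Λ) {sA sB : ℕ}
    (hsA : ∀ a : ℕ, sA ≤ a → a ≤ m * (m * d) →
      1 < Λ ^ a * p ^ (a.choose 2) * (1 / 4 / ((m * n1 : ℕ) : ℝ) ^ (m * (m * d))))
    (hsB : 1 < Λ ^ sB * (1 / 4 / ((m * n1 : ℕ) : ℝ) ^ l))
    {NA NB : ℕ} (hNA : 2 ≤ NA) (hNB : 2 ≤ NB) (hKA : m * (m * d) * NA ≤ n)
    (hlB : l * NB ≤ n) :
    ENNReal.ofReal (1 - (m * (m * d) : ℕ) * Λ / NA) ≤
      Prb W n (fun ω => ∃ S : Finset (Fin n), m * (m * d) < S.card + sA ∧ Red ω S) ∨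
    ENNReal.ofReal (1 - l * Λ / NB) ≤
      Prb W n (fun ω => ∃ S : Finset (Fin n), l < S.card + sB ∧ Blu ω S) := by
  have hn0 : 0 < n1 := by
    rcases Nat.eq_zero_or_pos n1 with h | h
    · have := hn1 ⟨0, hm⟩
      have hmr : (0 : ℝ) < m := by exact_mod_cast hm
      rw [h] at this
      norm_num at this
      linarith
    · exact h
  have hmn : 0 < m * n1 := Nat.mul_pos hm hn0
  have hmn' : (0 : ℝ) < ((m * n1 : ℕ) : ℝ) := by exact_mod_cast hmn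
  rcases quarter (sample hW h0 h1 hA hm hd hθ0 hθ hbad hn1 hbig) with h2 | h2
  · right
    exact caseB hW h0 h1 hlB hNB hΛ (by positivity) (quarter_div hmn h2) hsB
  · left
    exact caseA hW h0 h1 hKA hNA hA hp0 hp1 hΛ (by positivity) (quarter_div hmn h2) hsA

end Pool.Agent.H136.GB
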