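import Pool.Agent.H136.GB.MV
import Pool.Agent.H136.GB.BL

set_option autoImplicit false

namespace Pool.Agent.H136.GB

open MeasureTheory Finset Pool.Agent.H.MP_eaf82e_pr

/-- The pair of vertices of a strictly monotone map. -/
def emf {k n : ℕ} (f : Fin k → Fin n) (hf : StrictMono f) (e : Ed k) : Ed n :=
  ⟨(f e.1.1, f e.1.2), hf e.2⟩

lemma emf_inj {k n : ℕ} (f : Fin k → Fin n) (hf : StrictMono f) :
    Function.Injective (emf f hf) := by
  intro e e' hee
  have h1 : (f e.1.1, f e.1.2) = (f e'.1.1, f e'.1.2) := congrArg Subtype.val hee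
  rw [Prod.mk.injEq] at h1
  exact Subtype.ext (Prod.ext (hf.injective h1.1) (hf.injective h1.2))

lemma edge_sum_false {ι : Type} [Fintype ι] [DecidableEq ι] {p : ι → ℝ} (h0 : ∀ e, 0 ≤ p e)
    (h1 : ∀ e, p e ≤ 1) (A : Finset ι) :
    ∑ ω : ι → Bool, ENNReal.ofReal (wt p ω) * (if ∀ e ∈ A, ω e = false then 1 else 0) =
      ∏ e ∈ A, ENNReal.ofReal (1 - p e) := by
  rw [← ENNReal.ofReal_prod_of_nonneg fun e _ => sub_nonneg.mpr (h1 e), ← sum_wt_false,
    ENNReal.ofReal_sum_of_nonneg]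
  · refine Finset.sum_congr rfl fun ω _ => ?_
    rw [ENNReal.ofReal_mul (wt_nonneg h0 h1 ω)]
    split_ifs <;> simp
  · intro ω _
    refine mul_nonneg (wt_nonneg h0 h1 ω) ?_
    split_ifs <;> norm_num

/-- The complementary kernel. -/
def cpl (W : ℝ → ℝ → ℝ) : ℝ → ℝ → ℝ := fun x y => 1 - W x y

section
variable {W : ℝ → ℝ → ℝ} (h0 : ∀ x y, 0 ≤ W x y) (h1 : ∀ x y, W x y ≤ 1)
include h0 h1

lemma sum_red {k n : ℕ} (f : Fin k → Fin n) (hf : StrictMono f) (S : Finset (Ed k))
    (x : Fin n → ℝ) :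
    ∑ ω : Ed n → Bool, ENNReal.ofReal (wt (px W x) ω) *
      idc (∀ e ∈ S, ω (emf f hf e) = true) = PW W S (x ∘ f) := by
  classical
  have he := edge_sum (p := px W x) (fun e => h0 _ _) (fun e => h1 _ _) (S.image (emf f hf))
  rw [Finset.prod_image fun a _ b _ hab => emf_inj f hf hab] at he
  refine Eq.trans ?_ he
  refine Finset.sum_congr rfl fun ω _ => ?_
  congr 1
  by_cases h2 : ∀ e ∈ S, ω (emf f hf e) = true
  · rw [idc_pos h2, if_pos]
    intro e he
    obtain ⟨e', he', rfl⟩ := Finset.mem_image.mp he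
    exact h2 e' he'
  · rw [idc_neg h2, if_neg]
    exact fun h3 => h2 fun e he => h3 _ (Finset.mem_image_of_mem _ he)

lemma sum_blue {k n : ℕ} (f : Fin k → Fin n) (hf : StrictMono f) (S : Finset (Ed k))
    (x : Fin n → ℝ) :
    ∑ ω : Ed n → Bool, ENNReal.ofReal (wt (px W x) ω) *
      idc (∀ e ∈ S, ω (emf f hf e) = false) = PW (cpl W) S (x ∘ f) := by
  classical
  have he := edge_sum_false (p := px W x) (fun e => h0 _ _) (fun e => h1 _ _)
    (S.image (emf f hf))
  rw [Finset.prod_image fun a _ b _ hab => emf_inj f hf hab] at he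
  refine Eq.trans ?_ he
  refine Finset.sum_congr rfl fun ω _ => ?_
  congr 1
  by_cases h2 : ∀ e ∈ S, ω (emf f hf e) = false
  · rw [idc_pos h2, if_pos]
    intro e he
    obtain ⟨e', he', rfl⟩ := Finset.mem_image.mp he
    exact h2 e' he'
  · rw [idc_neg h2, if_neg]
    exact fun h3 => h2 fun e he => h3 _ (Finset.mem_image_of_mem _ he)

end

open Classical in
/-- The strictly monotone maps. -/
noncomputable def SMs (k n : ℕ) : Finset (Fin k → Fin n) := univ.filter StrictMono

lemma SMs_card (k n : ℕ) : ((SMs k n).card : ENNReal) ≤ (n : ENNReal) ^ k := by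
  have h : (SMs k n).card ≤ n ^ k := by
    calc (SMs k n).card ≤ Fintype.card (Fin k → Fin n) := Finset.card_le_univ _
      _ = n ^ k := by simp
  exact_mod_cast h

lemma mem_SMs {k n : ℕ} {f : Fin k → Fin n} : f ∈ SMs k n ↔ StrictMono f := by
  simp [SMs]

lemma meas_cpl {W : ℝ → ℝ → ℝ} (hW : Measurable (Function.uncurry W)) :
    Measurable (Function.uncurry (cpl W)) := hW.const_sub 1

/-- **The first moment bound for samples.** -/
theorem first {W : ℝ → ℝ → ℝ} (hW : Measurable (Function.uncurry W)) (h0 : ∀ x y, 0 ≤ W x y)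
    (h1 : ∀ x y, W x y ≤ 1) {K l n : ℕ} (w : Finset (Ed K)) (φ : (Fin K → ℝ) → ENNReal)
    (hφ : Measurable φ) (X : Set (Fin n → ℝ)) (hX : (mun n).real Xᶜ ≤ 1 / 2)
    (h : ∀ x ∈ X, ∀ ω : Ed n → Bool,
      (∃ (f : Fin l → Fin n) (hf : StrictMono f), ∀ e ∈ (univ : Finset (Ed l)),
        ω (emf f hf e) = false) ∨
      (∃ (f : Fin K → Fin n) (hf : StrictMono f), φ (x ∘ f) = 1 ∧
        ∀ e ∈ w, ω (emf f hf e) = true)) :
    ENNReal.ofReal (1 / 2) ≤
      (n : ENNReal) ^ l * ∫⁻ y, PW (cpl W) univ y ∂(mun l) +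
      (n : ENNReal) ^ K * ∫⁻ y, φ y * PW W w y ∂(mun K) := by
  classical
  let F : (Fin n → ℝ) → ENNReal := fun x =>
    ∑ f ∈ SMs l n, PW (cpl W) univ (x ∘ f) + ∑ f ∈ SMs K n, φ (x ∘ f) * PW W w (x ∘ f)
  have hcomp : ∀ {k : ℕ} (f : Fin k → Fin n), Measurable (fun x : Fin n → ℝ => x ∘ f) :=
    fun f => measurable_pi_lambda _ fun i => measurable_pi_apply (f i)
  have m1 : Measurable (fun y => φ y * PW W w y) := hφ.mul (meas_PW hW _)
  have m2 : Measurable (PW (K := l) (cpl W) univ) := meas_PW (meas_cpl hW) _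
  have hF : Measurable F :=
    (Finset.measurable_fun_sum _ fun f _ => m2.comp (hcomp f)).add
      (Finset.measurable_fun_sum _ fun f _ => m1.comp (hcomp f))
  have hF1 : ∀ x ∈ X, 1 ≤ F x := by
    intro x hx
    have e1 : ∑ ω : Ed n → Bool, ENNReal.ofReal (wt (px W x) ω) = 1 := by
      have := edge_sum (p := px W x) (fun e => h0 _ _) (fun e => h1 _ _) ∅
      simpa using this
    let bl : (Fin l → Fin n) → (Ed n → Bool) → ENNReal := fun f ω =>
      if hf : StrictMono f then idc (∀ e ∈ (univ : Finset (Ed l)), ω (emf f hf e) = false) else 0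
    let rd : (Fin K → Fin n) → (Ed n → Bool) → ENNReal := fun f ω =>
      if hf : StrictMono f then idc (∀ e ∈ w, ω (emf f hf e) = true) else 0
    have e2 : ∀ ω, (1 : ENNReal) ≤ ∑ f ∈ SMs l n, bl f ω + ∑ f ∈ SMs K n, φ (x ∘ f) * rd f ω := by
      intro ω
      rcases h x hx ω with ⟨f, hf, hf2⟩ | ⟨f, hf, hf2, hf3⟩
      · refine le_trans ?_ le_self_add
        refine le_trans ?_ (Finset.single_le_sum (fun _ _ => zero_le) (mem_SMs.mpr hf))
        simp only [bl, dif_pos hf]
        rw [idc_pos hf2]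
      · refine le_trans ?_ le_add_self
        refine le_trans ?_ (Finset.single_le_sum (fun _ _ => zero_le) (mem_SMs.mpr hf))
        simp only [rd, dif_pos hf]
        rw [hf2, idc_pos hf3, one_mul]
    calc (1 : ENNReal) = ∑ ω : Ed n → Bool, ENNReal.ofReal (wt (px W x) ω) * 1 := by
          simp only [mul_one]; exact e1.symm
      _ ≤ ∑ ω : Ed n → Bool, ENNReal.ofReal (wt (px W x) ω) *
          (∑ f ∈ SMs l n, bl f ω + ∑ f ∈ SMs K n, φ (x ∘ f) * rd f ω) :=
          Finset.sum_le_sum fun ω _ => mul_le_mul' le_rfl (e2 ω)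
      _ = ∑ f ∈ SMs l n, ∑ ω : Ed n → Bool, ENNReal.ofReal (wt (px W x) ω) * bl f ω +
          ∑ f ∈ SMs K n, φ (x ∘ f) *
            ∑ ω : Ed n → Bool, ENNReal.ofReal (wt (px W x) ω) * rd f ω := by
          simp only [mul_add, Finset.sum_add_distrib, Finset.mul_sum]
          congr 1
          · exact Finset.sum_comm
          · rw [Finset.sum_comm]
            refine Finset.sum_congr rfl fun f _ => Finset.sum_congr rfl fun ω _ => ?_
            ring
      _ = F x := by
          simp only [F]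
          congr 1
          · refine Finset.sum_congr rfl fun f hf => ?_
            have hf' := mem_SMs.mp hf
            simp only [bl, dif_pos hf']
            exact sum_blue h0 h1 f hf' univ x
          · refine Finset.sum_congr rfl fun f hf => ?_
            have hf' := mem_SMs.mp hf
            simp only [rd, dif_pos hf']
            rw [sum_red h0 h1 f hf' w x]
  have hint : ∫⁻ x, F x ∂(mun n) ≤
      (n : ENNReal) ^ l * ∫⁻ y, PW (cpl W) univ y ∂(mun l) +
      (n : ENNReal) ^ K * ∫⁻ y, φ y * PW W w y ∂(mun K) := by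
    have e3 : ∫⁻ x, F x ∂(mun n) =
        ∑ f ∈ SMs l n, ∫⁻ x, (PW (cpl W) univ ∘ fun x : Fin n → ℝ => x ∘ f) x ∂(mun n) +
        ∑ f ∈ SMs K n, ∫⁻ x, ((fun y => φ y * PW W w y) ∘ fun x : Fin n → ℝ => x ∘ f) x
          ∂(mun n) := by
      rw [← lintegral_finsetSum _ fun f _ => m2.comp (hcomp f),
        ← lintegral_finsetSum _ fun f _ => m1.comp (hcomp f),
        ← lintegral_add_left (Finset.measurable_fun_sum _ fun f _ => m2.comp (hcomp f))]
      rfl
    rw [e3]
    refine add_le_add ?_ ?_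
    · calc ∑ f ∈ SMs l n, ∫⁻ x, (PW (cpl W) univ ∘ fun x : Fin n → ℝ => x ∘ f) x ∂(mun n)
          = ∑ f ∈ SMs l n, ∫⁻ y, PW (cpl W) univ y ∂(mun l) :=
            Finset.sum_congr rfl fun f hf =>
              (inj_mp lam f (mem_SMs.mp hf).injective).lintegral_comp m2
        _ = (SMs l n).card * ∫⁻ y, PW (cpl W) univ y ∂(mun l) := by
            rw [Finset.sum_const, nsmul_eq_mul]
        _ ≤ _ := mul_le_mul' (SMs_card l n) le_rfl
    · calc ∑ f ∈ SMs K n, ∫⁻ x, ((fun y => φ y * PW W w y) ∘ fun x : Fin n → ℝ => x ∘ f) x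
            ∂(mun n)
          = ∑ f ∈ SMs K n, ∫⁻ y, φ y * PW W w y ∂(mun K) :=
            Finset.sum_congr rfl fun f hf =>
              (inj_mp lam f (mem_SMs.mp hf).injective).lintegral_comp m1
        _ = (SMs K n).card * ∫⁻ y, φ y * PW W w y ∂(mun K) := by
            rw [Finset.sum_const, nsmul_eq_mul]
        _ ≤ _ := mul_le_mul' (SMs_card K n) le_rfl
  refine le_trans ?_ hint
  -- Markov
  have hms : MeasurableSet {x | 1 ≤ F x} := measurableSet_le measurable_const hF
  have h2 : (mun n).real {x | 1 ≤ F x}ᶜ ≤ 1 / 2 := by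
    refine le_trans (measureReal_mono ?_) hX
    intro x hx hxX
    exact hx (hF1 x hxX)
  have h3 : 1 / 2 ≤ (mun n).real {x | 1 ≤ F x} := by
    rw [probReal_compl_eq_one_sub hms] at h2
    linarith
  calc ENNReal.ofReal (1 / 2) ≤ ENNReal.ofReal ((mun n).real {x | 1 ≤ F x}) :=
        ENNReal.ofReal_le_ofReal h3
    _ = mun n {x | 1 ≤ F x} := ofReal_measureReal
    _ = 1 * mun n {x | 1 ≤ F x} := (one_mul _).symm
    _ ≤ _ := mul_meas_ge_le_lintegral hF 1

end Pool.Agent.H136.GB
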