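import Pool.Agent.H136.GB.BS

set_option autoImplicit false

namespace Pool.Agent.H136.GB

open MeasureTheory Finset Filter Pool.Agent.H.MP_eaf82e_pr

/-- Markov's inequality on a rectangle. -/
lemma rect {F : ℝ × ℝ → ℝ} (hF : BM F) (h0 : ∀ z, 0 ≤ F z) {A C : Set ℝ}
    (hA : MeasurableSet A) (hC : MeasurableSet C) {P : ℝ × ℝ → Prop} {g η θ : ℝ} (hg : 0 < g)
    (hP : ∀ z, P z → g ≤ F z)
    (h : B F (lam.restrict A) (lam.restrict C) ≤ η * lam.real A * lam.real C)
    (hη : η ≤ θ * g) :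
    (lam.prod lam).real {z : ℝ × ℝ | z.1 ∈ A ∧ z.2 ∈ C ∧ P z} ≤
      θ * lam.real A * lam.real C := by
  have h1 := mul_meas_ge_le_integral_of_nonneg (μ := (lam.restrict A).prod (lam.restrict C))
    (ae_of_all _ h0) (hF.int _) g
  have h2 : (lam.prod lam).real {z : ℝ × ℝ | z.1 ∈ A ∧ z.2 ∈ C ∧ P z} ≤
      ((lam.restrict A).prod (lam.restrict C)).real {z | g ≤ F z} := by
    refine ENNReal.toReal_mono (measure_ne_top _ _) ?_
    rw [Measure.prod_restrict, Measure.restrict_apply' (hA.prod hC)]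
    refine measure_mono ?_
    rintro z ⟨z1, z2, z3⟩
    exact ⟨hP z z3, z1, z2⟩
  have h3 : g * (lam.prod lam).real {z : ℝ × ℝ | z.1 ∈ A ∧ z.2 ∈ C ∧ P z} ≤
      g * (θ * lam.real A * lam.real C) := by
    calc g * (lam.prod lam).real {z : ℝ × ℝ | z.1 ∈ A ∧ z.2 ∈ C ∧ P z}
        ≤ g * ((lam.restrict A).prod (lam.restrict C)).real {z | g ≤ F z} := by gcongr
      _ ≤ B F (lam.restrict A) (lam.restrict C) := h1
      _ ≤ η * lam.real A * lam.real C := h
      _ ≤ (θ * g) * lam.real A * lam.real C := by gcongr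
      _ = _ := by ring
  exact le_of_mul_le_mul_left h3 hg

theorem main {p ε : ℝ} (hp0 : 0 < p) (hp1 : p < 1) (hε0 : 0 < ε) (hε1 : ε < 1) :
    ∃ δ : ℝ, 0 < δ ∧ ∀ᶠ n : ℕ in atTop,
      ∀ W : ℝ → ℝ → ℝ, Measurable (Function.uncurry W) → (∀ x y, 0 ≤ W x y) →
      (∀ x y, W x y ≤ 1) → ∀ (k : ℕ) (q : ℝ → Fin k) (c : Fin k → Fin k → ℝ),
      Measurable q → (k : ℝ) ≤ (n : ℝ) ^ δ → B (er W q c) lam lam ≤ δ →
      ENNReal.ofReal (1 - (n : ℝ) ^ (-δ)) ≤ Prb W n (fun ω => ∃ S : Finset (Fin n),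
        ((2 - ε) * Real.log n / (-Real.log p) ≤ S.card ∧ Red ω S) ∨
        ((2 - ε) * Real.log n / (-Real.log (1 - p)) ≤ S.card ∧ Blu ω S)) := by
  classical
  have hlp : Real.log p < 0 := Real.log_neg hp0 hp1
  have hlq : Real.log (1 - p) < 0 := Real.log_neg (by linarith) (by linarith)
  obtain ⟨p1, hp1'⟩ : ∃ p1 : ℝ, p1 = Real.exp ((1 + ε / 4) * Real.log p) := ⟨_, rfl⟩
  obtain ⟨p2, hp2'⟩ : ∃ p2 : ℝ, p2 = Real.exp ((1 + ε / 4) * Real.log (1 - p)) := ⟨_, rfl⟩
  have p10 : 0 < p1 := by rw [hp1']; exact Real.exp_pos _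
  have p20 : 0 < p2 := by rw [hp2']; exact Real.exp_pos _
  have p1p : p1 < p := by
    conv_rhs => rw [← Real.exp_log hp0]
    rw [hp1', Real.exp_lt_exp]
    nlinarith
  have p2q : p2 < 1 - p := by
    conv_rhs => rw [← Real.exp_log (show 0 < 1 - p by linarith)]
    rw [hp2', Real.exp_lt_exp]
    nlinarith
  have l1 : -Real.log p1 = (1 + ε / 4) * (-Real.log p) := by rw [hp1', Real.log_exp]; ring
  have l2 : -Real.log p2 = (1 + ε / 4) * (-Real.log (1 - p)) := by
    rw [hp2', Real.log_exp]; ring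
  obtain ⟨m1, θ1, δ1, hm1, hθ1, hδ1, H1⟩ := redcase (κ := 2 / (-Real.log (1 - p))) p10
    (by linarith) (half_pos hε0) (by linarith)
  obtain ⟨m2, θ2, δ2, hm2, hθ2, hδ2, H2⟩ := redcase (κ := 2 / (-Real.log p)) p20
    (by linarith) (half_pos hε0) (by linarith)
  obtain ⟨m0, hm0⟩ : ∃ m0 : ℕ, m0 = (m1 + m2).choose m1 := ⟨_, rfl⟩
  have hm0p : 0 < m0 := by rw [hm0]; exact Nat.choose_pos (by omega)
  have hm0r : (0 : ℝ) < m0 := by exact_mod_cast hm0p
  obtain ⟨g, hg⟩ : ∃ g : ℝ, g = min (p - p1) ((1 - p) - p2) := ⟨_, rfl⟩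
  have hg0 : 0 < g := by rw [hg]; exact lt_min (by linarith) (by linarith)
  have hg1 : g ≤ p - p1 := by rw [hg]; exact min_le_left _ _
  have hg2 : g ≤ (1 - p) - p2 := by rw [hg]; exact min_le_right _ _
  obtain ⟨η, hη⟩ : ∃ η : ℝ, η = min θ1 θ2 * g := ⟨_, rfl⟩
  have hη0 : 0 < η := by rw [hη]; exact mul_pos (lt_min hθ1 hθ2) hg0
  have hη1 : η ≤ θ1 * g := by
    rw [hη]; exact mul_le_mul_of_nonneg_right (min_le_left _ _) hg0.le
  have hη2 : η ≤ θ2 * g := by
    rw [hη]; exact mul_le_mul_of_nonneg_right (min_le_right _ _) hg0.le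
  obtain ⟨δ', hδ'⟩ : ∃ δ' : ℝ, δ' = min δ1 δ2 := ⟨_, rfl⟩
  have hδ'0 : 0 < δ' := by rw [hδ']; exact lt_min hδ1 hδ2
  have hδ'1 : δ' ≤ δ1 := by rw [hδ']; exact min_le_left _ _
  have hδ'2 : δ' ≤ δ2 := by rw [hδ']; exact min_le_right _ _
  refine ⟨min (min (δ' / 2) (η / (4 * m0 ^ 2))) (ε / 32),
    lt_min (lt_min (by positivity) (by positivity)) (by positivity), ?_⟩
  filter_upwards [H1, H2, ev_pow (4 * m0) 0 (half_pos hδ'0), tlog.eventually_ge_atTop 0,
    eventually_gt_atTop 0] with n H1 H2 c1 c2 hn W hW h0 h1 k q c hq hk hB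
  have hnr : (0 : ℝ) < n := by exact_mod_cast hn
  have hnx : (n : ℝ) = Real.exp (Real.log n) := (Real.exp_log hnr).symm
  rw [pow_zero, mul_one] at c1
  have hkx : (k : ℝ) ≤ Real.exp (δ' / 2 * Real.log n) := by
    refine hk.trans ?_
    rw [Real.rpow_def_of_pos hnr]
    refine Real.exp_le_exp.mpr ?_
    rw [mul_comm]
    exact mul_le_mul_of_nonneg_right ((min_le_left _ _).trans (min_le_left _ _)) c2
  have hB' : B (er W q c) lam lam ≤ η / (4 * m0 ^ 2) :=
    hB.trans ((min_le_left _ _).trans (min_le_right _ _))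
  clear hB hk
  have hfp : ENNReal.ofReal (1 - (n : ℝ) ^ (-(min (min (δ' / 2) (η / (4 * m0 ^ 2)))
      (ε / 32)))) ≤ ENNReal.ofReal (1 - Real.exp (-(ε / 2 / 16 * Real.log n))) := by
    refine ENNReal.ofReal_le_ofReal ?_
    rw [Real.rpow_def_of_pos hnr]
    refine sub_le_sub_left (Real.exp_le_exp.mpr ?_) 1
    have h9 := mul_le_mul_of_nonneg_right
      (min_le_right (min (δ' / 2) (η / (4 * (m0 : ℝ) ^ 2))) (ε / 32)) c2
    linarith
  refine hfp.trans ?_
  clear hfp
  generalize hx : Real.log n = x at H1 H2 c1 c2 hkx ⊢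
  have hbd : (m0 : ℝ) * (k * Real.exp (-(δ' * x))) + m0 ^ 2 * (η / (4 * m0 ^ 2) / η) < 1 := by
    have e1 : (m0 : ℝ) ^ 2 * (η / (4 * m0 ^ 2) / η) = 1 / 4 := by
      field_simp
    have e2 : (m0 : ℝ) * (k * Real.exp (-(δ' * x))) ≤ 1 / 4 := by
      calc (m0 : ℝ) * (k * Real.exp (-(δ' * x)))
          ≤ m0 * (Real.exp (δ' / 2 * x) * Real.exp (-(δ' * x))) := by gcongr
        _ = m0 * Real.exp (-(δ' / 2 * x)) := by
            rw [← Real.exp_add]; congr 2; ring
        _ = (4 * m0) * Real.exp (-(δ' / 2 * x)) / 4 := by ring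
        _ ≤ Real.exp (δ' / 2 * x) * Real.exp (-(δ' / 2 * x)) / 4 := by gcongr
        _ = 1 / 4 := by rw [← Real.exp_add]; simp
    linarith
  obtain ⟨f, hf1, hf2⟩ := blocks hW h0 h1 hq c hB' hη0 (Real.exp_pos _).le hbd
  have hF := er_BM hW h0 h1 hq c
  have hFn : ∀ z, 0 ≤ er W q c z := fun z => abs_nonneg _
  have hms : ∀ a, MeasurableSet (q ⁻¹' {a}) := fun a => hq (measurableSet_singleton a)
  let r : Fin m0 → Fin m0 → Prop := fun i j =>
    (i < j → p ≤ c (f i) (f j)) ∧ (j < i → p ≤ c (f j) (f i))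
  have hr : ∀ i j, r i j → r j i := fun i j h => ⟨h.2, h.1⟩
  rcases ramsey r hr _ m1 m2 rfl (univ : Finset (Fin m0)) (by
    rw [Finset.card_univ, Fintype.card_fin, hm0]) with ⟨S, -, hSc, hS⟩ | ⟨S, -, hSc, hS⟩
  · -- red blocks
    obtain ⟨S', hS', hSc'⟩ := Finset.exists_subset_card_eq (s := S) (n := m1) (by omega)
    have hS'' := hS.mono hS'
    have key := H1 W hW h0 h1 (fun i => q ⁻¹' {f (S'.orderEmbOfFin hSc' i)})
      (fun i => hms _) (fun i => by
        refine le_trans ?_ (hf1 _)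
        refine Real.exp_le_exp.mpr ?_
        have := mul_le_mul_of_nonneg_right hδ'1 c2
        linarith) (fun i j hij => by
        have hlt : S'.orderEmbOfFin hSc' i < S'.orderEmbOfFin hSc' j :=
          (S'.orderEmbOfFin hSc').strictMono hij
        have hc := (hS'' _ (S'.orderEmbOfFin_mem hSc' i) _ (S'.orderEmbOfFin_mem hSc' j)
          hlt.ne).1 hlt
        have h5 := rect hF hFn (hms (f (S'.orderEmbOfFin hSc' i)))
          (hms (f (S'.orderEmbOfFin hSc' j))) (P := fun z => q z.1 = f (S'.orderEmbOfFin hSc' i) ∧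
            q z.2 = f (S'.orderEmbOfFin hSc' j) ∧ W z.1 z.2 < p1) hg0 (by
            rintro z ⟨z1, z2, z3⟩
            unfold er
            rw [z1, z2, abs_sub_comm]
            refine le_trans ?_ (le_abs_self _)
            linarith) (hf2 _ _ hlt) hη1
        refine le_trans (le_of_eq ?_) h5
        congr 1
        ext z
        simp only [Set.mem_ofPred_eq, Set.mem_preimage, Set.mem_singleton_iff]
        tauto)
    rcases key with key | key
    · refine key.trans (Prb_mono W n ?_)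
      rintro ω ⟨T, hT, hR⟩
      refine ⟨T, Or.inl ⟨le_trans ?_ hT, hR⟩⟩
      rw [l1, div_le_div_iff₀ (by linarith) (by nlinarith)]
      have h6 : (2 - ε) * (1 + ε / 4) ≤ 2 - ε / 2 := by nlinarith
      have h7 : 0 ≤ x * (-Real.log p) := mul_nonneg c2 (by linarith)
      calc (2 - ε) * x * ((1 + ε / 4) * -Real.log p)
          = ((2 - ε) * (1 + ε / 4)) * (x * (-Real.log p)) := by ring
        _ ≤ (2 - ε / 2) * (x * (-Real.log p)) := mul_le_mul_of_nonneg_right h6 h7
        _ = _ := by ring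
    · refine key.trans (Prb_mono W n ?_)
      rintro ω ⟨T, hT, hR⟩
      refine ⟨T, Or.inr ⟨le_trans ?_ hT, hR⟩⟩
      rw [div_mul_eq_mul_div]
      have h7 : 0 ≤ ε * x := mul_nonneg hε0.le c2
      exact div_le_div_of_nonneg_right (by linarith) (by linarith)
  · -- blue blocks
    obtain ⟨S', hS', hSc'⟩ := Finset.exists_subset_card_eq (s := S) (n := m2) (by omega)
    have hS'' := hS.mono hS'
    have key := H2 (cpl W) (meas_cpl hW) (fun x y => sub_nonneg.mpr (h1 x y))
      (fun x y => by simp only [cpl]; linarith [h0 x y])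
      (fun i => q ⁻¹' {f (S'.orderEmbOfFin hSc' i)})
      (fun i => hms _) (fun i => by
        refine le_trans ?_ (hf1 _)
        refine Real.exp_le_exp.mpr ?_
        have := mul_le_mul_of_nonneg_right hδ'2 c2
        linarith) (fun i j hij => by
        have hlt : S'.orderEmbOfFin hSc' i < S'.orderEmbOfFin hSc' j :=
          (S'.orderEmbOfFin hSc').strictMono hij
        have hc : c (f (S'.orderEmbOfFin hSc' i)) (f (S'.orderEmbOfFin hSc' j)) < p := by
          by_contra hcon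
          refine hS'' _ (S'.orderEmbOfFin_mem hSc' i) _ (S'.orderEmbOfFin_mem hSc' j)
            hlt.ne ⟨fun _ => not_lt.mp hcon, fun h => absurd h hlt.not_gt⟩
        have h5 := rect hF hFn (hms (f (S'.orderEmbOfFin hSc' i)))
          (hms (f (S'.orderEmbOfFin hSc' j))) (P := fun z => q z.1 = f (S'.orderEmbOfFin hSc' i) ∧
            q z.2 = f (S'.orderEmbOfFin hSc' j) ∧ cpl W z.1 z.2 < p2) hg0 (by
            rintro z ⟨z1, z2, z3⟩
            unfold er
            rw [z1, z2]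
            refine le_trans ?_ (le_abs_self _)
            simp only [cpl] at z3
            linarith) (hf2 _ _ hlt) hη2
        refine le_trans (le_of_eq ?_) h5
        congr 1
        ext z
        simp only [Set.mem_ofPred_eq, Set.mem_preimage, Set.mem_singleton_iff]
        tauto)
    rw [Prb_cpl, Prb_cpl] at key
    rcases key with key | key
    · refine key.trans (Prb_mono W n ?_)
      rintro ω ⟨T, hT, hR⟩
      refine ⟨T, Or.inr ⟨le_trans ?_ hT, fun e he => ?_⟩⟩
      · rw [l2, div_le_div_iff₀ (by linarith) (by nlinarith)]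
        have h6 : (2 - ε) * (1 + ε / 4) ≤ 2 - ε / 2 := by nlinarith
        have h7 : 0 ≤ x * (-Real.log (1 - p)) := mul_nonneg c2 (by linarith)
        calc (2 - ε) * x * ((1 + ε / 4) * -Real.log (1 - p))
            = ((2 - ε) * (1 + ε / 4)) * (x * (-Real.log (1 - p))) := by ring
          _ ≤ (2 - ε / 2) * (x * (-Real.log (1 - p))) := mul_le_mul_of_nonneg_right h6 h7
          _ = _ := by ring
      · have := hR e he
        simpa using this
    · refine key.trans (Prb_mono W n ?_)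
      rintro ω ⟨T, hT, hR⟩
      refine ⟨T, Or.inl ⟨le_trans ?_ hT, fun e he => ?_⟩⟩
      · rw [div_mul_eq_mul_div]
        have h7 : 0 ≤ ε * x := mul_nonneg hε0.le c2
        exact div_le_div_of_nonneg_right (by linarith) (by linarith)
      · have := hR e he
        simpa using this

end Pool.Agent.H136.GB
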