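import Pool.Agent.H136.GB.SM

set_option autoImplicit false

namespace Pool.Agent.H136.GB

open MeasureTheory Finset Pool.Agent.H.MP_eaf82e_pr

lemma idc_mono {E F : Prop} (h : E → F) : idc E ≤ idc F := by
  by_cases hE : E
  · rw [idc_pos hE, idc_pos (h hE)]
  · rw [idc_neg hE]; exact zero_le

lemma Prb_mono (W : ℝ → ℝ → ℝ) (n : ℕ) {E F : (Ed n → Bool) → Prop} (h : ∀ ω, E ω → F ω) :
    Prb W n E ≤ Prb W n F :=
  lintegral_mono fun _ => Finset.sum_le_sum fun ω _ => mul_le_mul' le_rfl (idc_mono (h ω))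

variable {K n N : ℕ}

lemma ES_empty' : ES (∅ : Finset (Fin K)) = ∅ := by
  ext e; simp [ES]

lemma meas_pw (A : Finset (Fin K)) (ζ : Fin K → ℝ) :
    Measurable (fun z : Fin K → ℝ => A.piecewise ζ z) := by
  refine measurable_pi_lambda _ fun a => ?_
  by_cases ha : a ∈ A
  · simp only [Finset.piecewise_eq_of_mem _ _ _ ha]
    exact measurable_const
  · simp only [Finset.piecewise_eq_of_notMem _ _ _ ha]
    exact measurable_pi_apply a

lemma PW_congr (W : ℝ → ℝ → ℝ) {A : Finset (Fin K)} {y z : Fin K → ℝ}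
    (h : ∀ a ∈ A, y a = z a) {S : Finset (Ed K)} (hS : S ⊆ ES A) : PW W S y = PW W S z := by
  refine Finset.prod_congr rfl fun e he => ?_
  have h2 := hS he
  simp only [ES, Finset.mem_filter, Finset.mem_univ, true_and] at h2
  rw [px, px, h _ h2.1, h _ h2.2]

lemma PW_union (W : ℝ → ℝ → ℝ) {S S' : Finset (Ed K)} (h : Disjoint S S') (y : Fin K → ℝ) :
    PW W (S ∪ S') y = PW W S y * PW W S' y := Finset.prod_union h

/-- **The link of a maximal violator of the spread condition.** -/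
theorem MV {W : ℝ → ℝ → ℝ} (hW : Measurable (Function.uncurry W)) (h0 : ∀ x y, 0 ≤ W x y)
    (h1 : ∀ x y, W x y ≤ 1) (h : K * N ≤ n) (hN : 2 ≤ N)
    (φ : (Fin K → ℝ) → ENNReal) (hφ : Measurable φ) (hφ1 : ∀ y, φ y ≤ 1) {Λ : ℝ} (hΛ : 1 ≤ Λ)
    {β : ENNReal} (hβ : β = ∫⁻ y, φ y * PW W (ES univ) y ∂(mun K)) (hβ0 : β ≠ 0) {s : ℕ}
    (hs : ∀ (A : Finset (Fin K)) (ζ : Fin K → ℝ), s ≤ A.card →
      DD W φ univ A ζ < ENNReal.ofReal (Λ ^ A.card) * β) :
    ENNReal.ofReal (1 - K * Λ / N) ≤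
      Prb W n (fun ω => ∃ S : Finset (Fin n), K < S.card + s ∧ Red ω S) := by
  classical
  have hΛ0 : (0 : ℝ) ≤ Λ := by linarith
  let C : Finset (Finset (Fin K)) := univ.filter fun J => ∃ ζ : Fin K → ℝ,
    ENNReal.ofReal (Λ ^ J.card) * β ≤ DD W φ univ J ζ
  have hC : C.Nonempty := by
    refine ⟨∅, ?_⟩
    simp only [C, Finset.mem_filter, Finset.mem_univ, true_and]
    refine ⟨fun _ => 0, ?_⟩
    rw [Finset.card_empty, pow_zero, ENNReal.ofReal_one, one_mul, hβ, DD]
    refine le_of_eq (lintegral_congr fun z => ?_)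
    rw [Finset.piecewise_empty, ES_empty', Finset.sdiff_empty]
  obtain ⟨J, hJ, hmax⟩ := Finset.exists_max_image C Finset.card hC
  simp only [C, Finset.mem_filter, Finset.mem_univ, true_and] at hJ hmax
  obtain ⟨ζ, hζ⟩ := hJ
  have hJs : J.card < s := by
    by_contra hcon
    exact absurd hζ (not_le.mpr (hs J ζ (not_lt.mp hcon)))
  let T : Finset (Fin K) := Jᶜ
  have hT : T.card = K - J.card := by
    simp only [T, Finset.card_compl, Fintype.card_fin]
  have hJK : J.card ≤ K := by simpa using Finset.card_le_univ J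
  let S0 : Finset (Ed K) := ES univ \ (ES J ∪ ES T)
  let φ' : (Fin K → ℝ) → ENNReal := fun y =>
    φ (J.piecewise ζ y) * PW W S0 (J.piecewise ζ y)
  have hφ' : Measurable φ' :=
    (hφ.comp (meas_pw J ζ)).mul ((meas_PW hW S0).comp (meas_pw J ζ))
  have hφ1' : ∀ y, φ' y ≤ 1 := fun y => by
    calc φ' y ≤ 1 * 1 := mul_le_mul' (hφ1 _) (PW_le_one h1 _ _)
      _ = 1 := one_mul 1
  have hST : Disjoint S0 (ES T) := by
    rw [Finset.disjoint_left]
    intro e he he'
    exact (Finset.mem_sdiff.mp he).2 (Finset.mem_union_right _ he')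
  have hagT : ∀ y : Fin K → ℝ, ∀ a ∈ T, J.piecewise ζ y a = y a := by
    intro y a ha
    exact Finset.piecewise_eq_of_notMem _ _ _ (Finset.mem_compl.mp ha)
  set β' : ENNReal := DD W φ univ J ζ with hβ'
  have hβ'2 : β' = ∫⁻ y, φ' y * PW W (ES T) y ∂(mun K) := by
    rw [hβ', DD]
    refine lintegral_congr fun z => ?_
    have e1 : ES univ \ ES J = S0 ∪ ES T := by
      ext e
      simp only [S0, T, ES, Finset.mem_sdiff, Finset.mem_filter, Finset.mem_univ, true_and,
        Finset.mem_union, Finset.mem_compl]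
      tauto
    rw [e1, PW_union W hST, PW_congr W (hagT z) (le_refl (ES T))]
    simp only [φ']
    ring
  have hβ'0 : β' ≠ 0 := by
    refine (lt_of_lt_of_le ?_ hζ).ne'
    refine ENNReal.mul_pos ?_ hβ0
    rw [Ne, ENNReal.ofReal_eq_zero, not_le]
    positivity
  have hDle : ∀ (A : Finset (Fin K)) (ζ' : Fin K → ℝ),
      DD W φ' T A ζ' ≤ DD W φ univ (J ∪ A) (J.piecewise ζ ζ') := by
    intro A ζ'
    rw [DD, DD]
    refine lintegral_mono fun z => ?_
    have e2 : J.piecewise ζ (A.piecewise ζ' z) = (J ∪ A).piecewise (J.piecewise ζ ζ') z := by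
      funext a
      by_cases ha : a ∈ J
      · rw [Finset.piecewise_eq_of_mem _ _ _ ha,
          Finset.piecewise_eq_of_mem _ _ _ (Finset.mem_union_left _ ha),
          Finset.piecewise_eq_of_mem _ _ _ ha]
      · rw [Finset.piecewise_eq_of_notMem _ _ _ ha]
        by_cases ha' : a ∈ A
        · rw [Finset.piecewise_eq_of_mem _ _ _ ha',
            Finset.piecewise_eq_of_mem _ _ _ (Finset.mem_union_right _ ha'),
            Finset.piecewise_eq_of_notMem _ _ _ ha]
        · rw [Finset.piecewise_eq_of_notMem _ _ _ ha', Finset.piecewise_eq_of_notMem _ _ _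
            (by simp [ha, ha'])]
    have e3 : PW W (ES T \ ES A) (A.piecewise ζ' z) =
        PW W (ES T \ ES A) (J.piecewise ζ (A.piecewise ζ' z)) :=
      (PW_congr W (hagT (A.piecewise ζ' z)) Finset.sdiff_subset).symm
    have hd : Disjoint S0 (ES T \ ES A) := hST.mono_right Finset.sdiff_subset
    have hsub : ES univ \ ES (J ∪ A) ⊆ S0 ∪ (ES T \ ES A) := by
      intro e
      simp only [S0, T, ES, Finset.mem_sdiff, Finset.mem_filter, Finset.mem_univ, true_and,
        Finset.mem_union, Finset.mem_compl]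
      tauto
    simp only []
    rw [e3]
    simp only [φ']
    rw [mul_assoc, ← PW_union W hd, e2]
    exact mul_le_mul' le_rfl (PW_anti h1 hsub _)
  have hD' : ∀ (A : Finset (Fin K)) (ζ' : Fin K → ℝ),
      DD W φ' T A ζ' ≤ ENNReal.ofReal (Λ ^ A.card) * β' := by
    intro A ζ'
    refine (hDle A ζ').trans ?_
    by_cases hcard : J.card < (J ∪ A).card
    · have h2 : ¬ ENNReal.ofReal (Λ ^ (J ∪ A).card) * β ≤
          DD W φ univ (J ∪ A) (J.piecewise ζ ζ') := fun h3 =>
        absurd (hmax _ ⟨_, h3⟩) (not_le.mpr hcard)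
      calc DD W φ univ (J ∪ A) (J.piecewise ζ ζ')
          ≤ ENNReal.ofReal (Λ ^ (J ∪ A).card) * β := (not_le.mp h2).le
        _ ≤ ENNReal.ofReal (Λ ^ (A.card + J.card)) * β := by
            refine mul_le_mul' (ENNReal.ofReal_le_ofReal (pow_le_pow_right₀ hΛ ?_)) le_rfl
            rw [add_comm]
            exact Finset.card_union_le _ _
        _ = ENNReal.ofReal (Λ ^ A.card) * (ENNReal.ofReal (Λ ^ J.card) * β) := by
            rw [pow_add, ENNReal.ofReal_mul (by positivity)]
            ring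
        _ ≤ _ := mul_le_mul' le_rfl hζ
    · have h3 : J ∪ A = J :=
        (Finset.eq_of_subset_of_card_le Finset.subset_union_left (not_lt.mp hcard)).symm
      have h4 : DD W φ univ (J ∪ A) (J.piecewise ζ ζ') = β' := by
        rw [h3, hβ', DD, DD]
        refine lintegral_congr fun z => ?_
        have e4 : J.piecewise (J.piecewise ζ ζ') z = J.piecewise ζ z := by
          funext a
          by_cases ha : a ∈ J
          · simp [ha]
          · simp [ha]
        rw [e4]
      rw [h4]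
      calc β' = 1 * β' := (one_mul _).symm
        _ ≤ _ := mul_le_mul' (ENNReal.one_le_ofReal.mpr (one_le_pow₀ hΛ)) le_rfl
  refine (SM hW h0 h1 h hN T φ' hφ' hφ1' hΛ0 hβ'2 hβ'0 hD').trans (Prb_mono W n ?_)
  rintro ω ⟨S, hS, hR⟩
  exact ⟨S, by omega, hR⟩

end Pool.Agent.H136.GB
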