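import Pool.Agent.H136.GB.CO

set_option autoImplicit false

namespace Pool.Agent.H136.GB

open MeasureTheory Finset Filter Pool.Agent.H.MP_eaf82e_pr

lemma exists_m (R : ℕ) {c : ℝ} (hc : 0 < c) : ∃ m : ℕ, 0 < m ∧
    2 * ((Real.log (2 * m) + 1) + 2 * (Real.log (1 + R * m) + 1)) ≤ c * m := by
  have h1 : ∀ {c' : ℝ}, 0 < c' → ∀ᶠ y : ℝ in atTop, Real.log y ≤ c' * y := by
    intro c' hc'
    have := Real.isLittleO_log_id_atTop.bound hc'
    filter_upwards [this, eventually_ge_atTop (1 : ℝ)] with y hy hy1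
    rw [Real.norm_eq_abs, Real.norm_eq_abs, id, abs_of_nonneg (by linarith : (0 : ℝ) ≤ y)] at hy
    exact (le_abs_self _).trans hy
  have t1 : Tendsto (fun m : ℕ => 2 * (m : ℝ)) atTop atTop :=
    tendsto_natCast_atTop_atTop.const_mul_atTop (by norm_num)
  have t2 : Tendsto (fun m : ℕ => (1 + (R : ℝ)) * (m : ℝ)) atTop atTop :=
    tendsto_natCast_atTop_atTop.const_mul_atTop (by positivity)
  have e1 := t1.eventually (h1 (show 0 < c / 16 by positivity))
  have e2 := t2.eventually (h1 (show 0 < c / (16 * (1 + R)) by positivity))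
  have e3 := (tendsto_natCast_atTop_atTop (R := ℝ)).eventually_ge_atTop (12 / c)
  obtain ⟨m, h2, h3, h4, h5⟩ := (e1.and (e2.and (e3.and (eventually_gt_atTop 0)))).exists
  refine ⟨m, h5, ?_⟩
  have hm1 : (1 : ℝ) ≤ m := by exact_mod_cast h5
  have h6 : Real.log (1 + R * m) ≤ Real.log ((1 + R) * m) := by
    refine Real.log_le_log (by positivity) ?_
    nlinarith
  have h7 : c / (16 * (1 + R)) * ((1 + R) * m) = c / 16 * m := by
    field_simp
  rw [div_le_iff₀ hc] at h4
  rw [h7] at h3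
  nlinarith

theorem redcase {p ε κ : ℝ} (hp0 : 0 < p) (hp1 : p < 1) (hε0 : 0 < ε) (hε1 : ε < 1) :
    ∃ (m : ℕ) (θ δ : ℝ), 0 < m ∧ 0 < θ ∧ 0 < δ ∧ ∀ᶠ n : ℕ in atTop,
      ∀ W : ℝ → ℝ → ℝ, Measurable (Function.uncurry W) → (∀ x y, 0 ≤ W x y) →
      (∀ x y, W x y ≤ 1) → ∀ A : Fin m → Set ℝ, (∀ i, MeasurableSet (A i)) →
      (∀ i, Real.exp (-(δ * Real.log n)) ≤ lam.real (A i)) →
      (∀ i j, i < j → (lam.prod lam).real {z : ℝ × ℝ | z.1 ∈ A i ∧ z.2 ∈ A j ∧ W z.1 z.2 < p} ≤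
        θ * lam.real (A i) * lam.real (A j)) →
      ENNReal.ofReal (1 - Real.exp (-(ε / 16 * Real.log n))) ≤
        Prb W n (fun ω => ∃ S : Finset (Fin n),
          (2 - ε) * Real.log n / (-Real.log p) ≤ S.card ∧ Red ω S) ∨
      ENNReal.ofReal (1 - Real.exp (-(ε / 16 * Real.log n))) ≤
        Prb W n (fun ω => ∃ S : Finset (Fin n), κ * Real.log n ≤ S.card ∧ Blu ω S) := by
  set lm : ℝ := -Real.log p with hlm
  have hlm0 : 0 < lm := by
    rw [hlm]
    have := Real.log_neg hp0 hp1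
    linarith
  have hpe : p = Real.exp (-lm) := by rw [hlm, neg_neg, Real.exp_log hp0]
  obtain ⟨R0, hR0⟩ := exists_nat_ge (κ * lm)
  let R : ℕ := R0 + 1
  have hR : κ * lm ≤ R := by
    have : (R : ℝ) = R0 + 1 := by simp [R]
    linarith
  have hR1 : (1 : ℝ) ≤ R := by
    have : (R : ℝ) = R0 + 1 := by simp [R]
    have h2 : (0 : ℝ) ≤ R0 := Nat.cast_nonneg _
    linarith
  have hRn : 0 < R := Nat.succ_pos _
  clear_value R
  obtain ⟨δ, hδ⟩ : ∃ δ : ℝ, δ = ε ^ 2 / 1024 := ⟨_, rfl⟩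
  have hδ0 : 0 < δ := by rw [hδ]; positivity
  have hδ1 : δ ≤ 1 / 1024 := by
    rw [hδ]
    have : ε ^ 2 ≤ 1 := by nlinarith
    linarith
  obtain ⟨m, hm0, hm⟩ := exists_m R (show 0 < δ * lm by positivity)
  have hmr : (0 : ℝ) < m := by exact_mod_cast hm0
  have hm1 : (1 : ℝ) ≤ m := by exact_mod_cast hm0
  refine ⟨m, 1 / (256 * (m : ℝ) ^ 5), δ, hm0, by positivity, hδ0, ?_⟩
  obtain ⟨X0, hX0⟩ : ∃ X0 : ℝ, X0 = 200 / ε ^ 2 + 4 + 4 * lm * m ^ 2 / ε := ⟨_, rfl⟩
  filter_upwards [tlog.eventually_ge_atTop X0,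
    ev_pow (8 / lm ^ 2) 2 (show 0 < ε / 16 by positivity),
    ev_pow (32 * R ^ 2 / lm ^ 2) 2 (show 0 < ε / 16 by positivity),
    ev_pow (17 * (m : ℝ) ^ 2) 0 hδ0, ev_pow (8 * R / lm) 1 one_pos,
    eventually_gt_atTop 0] with n c1 c2 c3 c4 c5 hn W hW h0 h1 A hA hμ hbad
  have hnr : (0 : ℝ) < n := by exact_mod_cast hn
  have hnx : (n : ℝ) = Real.exp (Real.log n) := (Real.exp_log hnr).symm
  generalize Real.log n = x at c1 c2 c3 c4 c5 hμ hnx ⊢
  rw [pow_zero, mul_one] at c4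
  rw [pow_one, one_mul] at c5
  -- consequences of `c1`
  have a1 : 0 ≤ 200 / ε ^ 2 := by positivity
  have a2 : 0 ≤ 4 * lm * m ^ 2 / ε := by positivity
  have x4 : 4 ≤ x := by linarith
  have x0 : 0 < x := by linarith
  have x200 : 200 ≤ ε ^ 2 * x := by
    have : 200 / ε ^ 2 ≤ x := by linarith
    rw [div_le_iff₀ (by positivity)] at this
    linarith
  have xm : 4 * lm * m ^ 2 ≤ ε * x := by
    have : 4 * lm * m ^ 2 / ε ≤ x := by linarith
    rw [div_le_iff₀ hε0] at this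
    linarith
  have hεx : ε * x ≤ x := mul_le_of_le_one_left x0.le hε1.le
  have hεx0 : 0 < ε * x := mul_pos hε0 x0
  have xm1 : 4 * lm * m ^ 2 ≤ x := by linarith
  -- the parameters
  obtain ⟨D, hD⟩ : ∃ D : ℝ, D = (2 - ε / 2) * x / (lm * m ^ 2) := ⟨_, rfl⟩
  have hD1 : 1 ≤ D := by
    rw [hD, le_div_iff₀ (by positivity)]
    have : 0 < lm * (m : ℝ) ^ 2 := by positivity
    linarith
  obtain ⟨d, hd⟩ : ∃ d : ℕ, d = ⌊D⌋₊ := ⟨_, rfl⟩
  have hd1 : 1 ≤ d := by
    rw [hd]
    exact Nat.le_floor (by simpa using hD1)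
  have hdD : (d : ℝ) ≤ D := by rw [hd]; exact Nat.floor_le (by linarith)
  have hdD' : D - 1 < d := by rw [hd]; exact Nat.sub_one_lt_floor D
  obtain ⟨K, hK⟩ : ∃ K : ℕ, K = m * (m * d) := ⟨_, rfl⟩
  have hKr : (K : ℝ) = m ^ 2 * d := by rw [hK]; push_cast; ring
  have hmD : (m : ℝ) ^ 2 * D = (2 - ε / 2) * x / lm := by
    rw [hD]; field_simp
  have hK1 : (1 : ℝ) ≤ K := by
    rw [hKr]
    have : (1 : ℝ) ≤ d := by exact_mod_cast hd1
    exact one_le_mul_of_one_le_of_one_le (one_le_pow₀ hm1) this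
  have hKu : lm * K ≤ (2 - ε / 2) * x := by
    rw [hKr]
    calc lm * (m ^ 2 * d) ≤ lm * (m ^ 2 * D) := by gcongr
      _ = (2 - ε / 2) * x := by rw [hmD]; field_simp
  have hKl : (2 - ε / 2) * x - lm * m ^ 2 ≤ lm * K := by
    rw [hKr]
    calc (2 - ε / 2) * x - lm * m ^ 2 = lm * (m ^ 2 * (D - 1)) := by
          rw [mul_sub, hmD]; field_simp
      _ ≤ lm * (m ^ 2 * d) := by gcongr
  obtain ⟨l, hl⟩ : ∃ l : ℕ, l = 2 * (R * K) := ⟨_, rfl⟩
  have hlr : (l : ℝ) = 2 * R * K := by rw [hl]; push_cast; ring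
  obtain ⟨Λ, hΛ⟩ : ∃ Λ : ℝ, Λ = Real.exp ((1 - ε / 8) * x) := ⟨_, rfl⟩
  have hΛ1 : 1 ≤ Λ := by
    rw [hΛ]
    exact Real.one_le_exp (mul_nonneg (by linarith) x0.le)
  obtain ⟨n1, hn1⟩ : ∃ n1 : ℕ, n1 = ⌈16 * (m : ℝ) * Real.exp (3 * δ * x)⌉₊ := ⟨_, rfl⟩
  have hn1l : 16 * (m : ℝ) * Real.exp (3 * δ * x) ≤ n1 := by rw [hn1]; exact Nat.le_ceil _
  have hn1u : (n1 : ℝ) < 16 * (m : ℝ) * Real.exp (3 * δ * x) + 1 := by
    rw [hn1]; exact Nat.ceil_lt_add_one (by positivity)
  have he1 : 1 ≤ Real.exp (3 * δ * x) := Real.one_le_exp (by positivity)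
  have hn2 : ((m * n1 : ℕ) : ℝ) ≤ Real.exp (4 * δ * x) := by
    push_cast
    calc (m : ℝ) * n1 ≤ m * (16 * (m : ℝ) * Real.exp (3 * δ * x) + 1) := by gcongr
      _ = 16 * (m : ℝ) ^ 2 * Real.exp (3 * δ * x) + m * 1 := by ring
      _ ≤ 16 * (m : ℝ) ^ 2 * Real.exp (3 * δ * x) + m * (m * Real.exp (3 * δ * x)) := by
          gcongr
          exact one_le_mul_of_one_le_of_one_le hm1 he1
      _ = 17 * (m : ℝ) ^ 2 * Real.exp (3 * δ * x) := by ring
      _ ≤ Real.exp (δ * x) * Real.exp (3 * δ * x) := by gcongr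
      _ = Real.exp (4 * δ * x) := by rw [← Real.exp_add]; congr 1; ring
  have hn1pos : (0 : ℝ) < n1 := lt_of_lt_of_le (by positivity) hn1l
  have hn2pos : (0 : ℝ) < ((m * n1 : ℕ) : ℝ) := by push_cast; positivity
  obtain ⟨sA, hsA⟩ : ∃ sA : ℕ, sA = ⌈ε / 8 * (K : ℝ)⌉₊ := ⟨_, rfl⟩
  have hsAl : ε / 8 * K ≤ sA := by rw [hsA]; exact Nat.le_ceil _
  have hsAu : (sA : ℝ) < ε / 8 * K + 1 := by rw [hsA]; exact Nat.ceil_lt_add_one (by positivity)
  clear hsA hn1 hd
  have hΛ0 : 0 < Λ := by rw [hΛ]; exact Real.exp_pos _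
  -- powers
  have hpow : ∀ k : ℕ, Real.exp (-(4 * δ * x * k)) / 4 ≤ 1 / 4 / ((m * n1 : ℕ) : ℝ) ^ k := by
    intro k
    have e1 : ((m * n1 : ℕ) : ℝ) ^ k ≤ Real.exp (4 * δ * x * k) := by
      calc ((m * n1 : ℕ) : ℝ) ^ k ≤ Real.exp (4 * δ * x) ^ k := by gcongr
        _ = _ := by rw [← Real.exp_nat_mul]; congr 1; ring
    rw [Real.exp_neg, div_div, ← one_div, div_div]
    refine one_div_le_one_div_of_le (by positivity) ?_
    linarith
  have hlog4 : Real.log 4 < 1.39 := by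
    have : Real.log 4 = 2 * Real.log 2 := by
      rw [show (4 : ℝ) = 2 ^ 2 by norm_num, Real.log_pow]; norm_num
    rw [this]
    have := Real.log_two_lt_d9
    linarith
  have h4e : (1 : ℝ) / 4 = Real.exp (-Real.log 4) := by
    rw [Real.exp_neg, Real.exp_log (by norm_num)]; norm_num
  -- the sample conditions
  have s1 : ∀ i, 16 * (m : ℝ) ≤ n1 * lam.real (A i) ^ 2 := by
    intro i
    calc 16 * (m : ℝ) ≤ 16 * (m : ℝ) * Real.exp (δ * x) := by
          have : 1 ≤ Real.exp (δ * x) := Real.one_le_exp (by positivity)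
          exact le_mul_of_one_le_right (by positivity) this
      _ = (16 * (m : ℝ) * Real.exp (3 * δ * x)) * Real.exp (-(δ * x)) ^ 2 := by
          rw [← Real.exp_nat_mul, mul_assoc (16 * (m : ℝ)), ← Real.exp_add]
          congr 2
          push_cast
          ring
      _ ≤ _ := by
          have := hμ i
          gcongr
  have s2 : ∀ i, (4 * (((2 * m * d).choose d) ^ m *
      (2 * m * d + l).choose (2 * m * d)) : ℕ) ≤ (n1 : ℝ) * lam.real (A i) / 2 := by
    intro i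
    have b1 : ((2 * m * d).choose d : ℝ) ≤ Real.exp (d * (Real.log (2 * m) + 1)) :=
      choose_exp (by positivity) (by push_cast; exact le_rfl)
    have b2 : ((2 * m * d + l).choose (2 * m * d) : ℝ) ≤
        Real.exp ((2 * m * d : ℕ) * (Real.log (1 + R * m) + 1)) := by
      refine choose_exp (by positivity) ?_
      push_cast
      rw [hlr, hKr]
      exact le_of_eq (by ring)
    have b3 : (((2 * m * d).choose d) ^ m * (2 * m * d + l).choose (2 * m * d) : ℝ) ≤
        Real.exp (δ * x) := by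
      calc (((2 * m * d).choose d) ^ m * (2 * m * d + l).choose (2 * m * d) : ℝ)
          ≤ (Real.exp (d * (Real.log (2 * m) + 1))) ^ m *
            Real.exp ((2 * m * d : ℕ) * (Real.log (1 + R * m) + 1)) := by gcongr
        _ = Real.exp (d * m * ((Real.log (2 * m) + 1) + 2 * (Real.log (1 + R * m) + 1))) := by
            rw [← Real.exp_nat_mul, ← Real.exp_add]
            congr 1
            push_cast
            ring
        _ ≤ Real.exp (δ * x) := by
            refine Real.exp_le_exp.mpr ?_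
            have b4 : (d : ℝ) * m * ((Real.log (2 * m) + 1) + 2 * (Real.log (1 + R * m) + 1)) ≤
                d * m * (δ * lm * m / 2) := by
              have : (Real.log (2 * m) + 1) + 2 * (Real.log (1 + R * m) + 1) ≤
                δ * lm * m / 2 := by linarith
              gcongr
            refine b4.trans ?_
            have b5 : (d : ℝ) * m * (δ * lm * m / 2) = δ / 2 * (lm * K) := by
              rw [hKr]; ring
            rw [b5]
            calc δ / 2 * (lm * K) ≤ δ / 2 * ((2 - ε / 2) * x) := by gcongr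
              _ ≤ δ / 2 * (2 * x) := by
                  have : (2 - ε / 2) * x ≤ 2 * x := by linarith
                  gcongr
              _ = _ := by ring
    push_cast
    calc (4 : ℝ) * (((2 * m * d).choose d) ^ m * (2 * m * d + l).choose (2 * m * d))
        ≤ 4 * Real.exp (δ * x) := by gcongr
      _ ≤ 8 * m * Real.exp (2 * δ * x) := by
          have e1 : Real.exp (δ * x) ≤ Real.exp (2 * δ * x) :=
            Real.exp_le_exp.mpr (by linarith [mul_pos hδ0 x0])
          have e2 : 0 < Real.exp (2 * δ * x) := Real.exp_pos _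
          have e3 : 8 * 1 * Real.exp (2 * δ * x) ≤ 8 * m * Real.exp (2 * δ * x) := by gcongr
          linarith
      _ = (16 * (m : ℝ) * Real.exp (3 * δ * x)) * Real.exp (-(δ * x)) / 2 := by
          have e3 : Real.exp (2 * δ * x) = Real.exp (3 * δ * x) * Real.exp (-(δ * x)) := by
            rw [← Real.exp_add]; congr 1; ring
          rw [e3]; ring
      _ ≤ _ := by
          have := hμ i
          gcongr
  -- condition (A)
  have s3 : ∀ a : ℕ, sA ≤ a → a ≤ K →
      1 < Λ ^ a * p ^ (a.choose 2) * (1 / 4 / ((m * n1 : ℕ) : ℝ) ^ K) := by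
    intro a ha1 ha2
    have ha1' : ε / 8 * K ≤ a := hsAl.trans (by exact_mod_cast ha1)
    have ha2' : (a : ℝ) ≤ K := by exact_mod_cast ha2
    have hch : ((a.choose 2 : ℕ) : ℝ) ≤ a * K / 2 := by
      rw [Nat.cast_choose_two]
      have h5 : (0 : ℝ) ≤ a := Nat.cast_nonneg _
      have h6 : (a : ℝ) * (a - 1) ≤ a * K := mul_le_mul_of_nonneg_left (by linarith) h5
      linarith
    have e1 : Real.exp (a * ((1 - ε / 8) * x) - lm * (a * K / 2) - 4 * δ * x * K - Real.log 4) ≤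
        Λ ^ a * p ^ (a.choose 2) * (1 / 4 / ((m * n1 : ℕ) : ℝ) ^ K) := by
      calc Real.exp (a * ((1 - ε / 8) * x) - lm * (a * K / 2) - 4 * δ * x * K - Real.log 4)
          = Real.exp (a * ((1 - ε / 8) * x)) * Real.exp (-(lm * (a * K / 2))) *
            (Real.exp (-(4 * δ * x * K)) / 4) := by
            rw [div_eq_mul_one_div (Real.exp (-(4 * δ * x * K))) 4, h4e, ← Real.exp_add,
              ← Real.exp_add, ← Real.exp_add]
            congr 1
            ring
        _ ≤ Λ ^ a * p ^ (a.choose 2) *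
            (1 / 4 / ((m * n1 : ℕ) : ℝ) ^ K) := by
            refine mul_le_mul (mul_le_mul ?_ ?_ (Real.exp_pos _).le (by positivity))
              (hpow K) (by positivity) (by positivity)
            · rw [hΛ, ← Real.exp_nat_mul]
            · rw [hpe, ← Real.exp_nat_mul]
              refine Real.exp_le_exp.mpr ?_
              have := mul_le_mul_of_nonneg_left hch hlm0.le
              linarith
    refine lt_of_lt_of_le ?_ e1
    rw [Real.one_lt_exp_iff]
    have e2 : lm * (a * K / 2) ≤ a * ((1 - ε / 4) * x) := by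
      calc lm * (a * K / 2) = a * (lm * K) / 2 := by ring
        _ ≤ a * ((2 - ε / 2) * x) / 2 := by gcongr
        _ = _ := by ring
    have e3 : ε / 8 * K * (ε / 8 * x) ≤ a * (ε / 8 * x) := by gcongr
    have e4 : 200 * K ≤ ε ^ 2 * x * K := by gcongr
    have e5 : 4 * δ * x * K = ε ^ 2 * x * K / 256 := by rw [hδ]; ring
    rw [e5]
    linarith
  -- condition (B)
  have s4 : 1 < Λ ^ (R * K) * (1 / 4 / ((m * n1 : ℕ) : ℝ) ^ l) := by
    have e1 : Real.exp ((R * K : ℕ) * ((1 - ε / 8) * x) - 4 * δ * x * l - Real.log 4) ≤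
        Λ ^ (R * K) * (1 / 4 / ((m * n1 : ℕ) : ℝ) ^ l) := by
      calc Real.exp ((R * K : ℕ) * ((1 - ε / 8) * x) - 4 * δ * x * l - Real.log 4)
          = Real.exp ((R * K : ℕ) * ((1 - ε / 8) * x)) *
            (Real.exp (-(4 * δ * x * l)) / 4) := by
            rw [div_eq_mul_one_div (Real.exp (-(4 * δ * x * l))) 4, h4e, ← Real.exp_add,
              ← Real.exp_add]
            congr 1
            ring
        _ ≤ _ := by
            refine mul_le_mul ?_ (hpow l) (by positivity) (by positivity)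
            rw [hΛ, ← Real.exp_nat_mul]
    refine lt_of_lt_of_le ?_ e1
    rw [Real.one_lt_exp_iff, hlr]
    push_cast
    have e2 : 1 ≤ (R : ℝ) * K := one_le_mul_of_one_le_of_one_le hR1 hK1
    have e3 : 4 * δ * x * (2 * R * K) ≤ (R * K) * x * (1 / 128) := by
      have : 8 * δ ≤ 1 / 128 := by linarith
      calc 4 * δ * x * (2 * R * K) = (R * K) * x * (8 * δ) := by ring
        _ ≤ _ := by gcongr
    have e4 : (7 / 8) * ((R * K) * x) ≤ R * K * ((1 - ε / 8) * x) := by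
      have : (R * K : ℝ) * ((1 - ε / 8) * x) = (1 - ε / 8) * ((R * K) * x) := by ring
      rw [this]
      gcongr
      linarith
    have e5 : 4 ≤ (R * K : ℝ) * x := by
      have := mul_le_mul e2 x4 (by norm_num) (by positivity)
      linarith
    linarith
  -- the numbers of groups
  have hkk : ∀ k : ℕ, (1 : ℝ) ≤ k → 2 * (k : ℝ) ≤ Real.exp x → 2 ≤ n / k ∧ k * (n / k) ≤ n ∧
      (k : ℝ) * Λ / ((n / k : ℕ) : ℝ) ≤ 2 * k ^ 2 * Real.exp (-(ε / 8 * x)) := by
    intro k hk1 hk2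
    have hkpos : 0 < k := by
      have : (0 : ℝ) < k := by linarith
      exact_mod_cast this
    have hk2n : 2 * k ≤ n := by
      have : ((2 * k : ℕ) : ℝ) ≤ n := by push_cast; rw [hnx]; exact hk2
      exact_mod_cast this
    have f1 : 2 ≤ n / k := (Nat.le_div_iff_mul_le hkpos).mpr (by linarith)
    refine ⟨f1, Nat.mul_div_le n k, ?_⟩
    have f2 : (n : ℝ) / (2 * k) ≤ ((n / k : ℕ) : ℝ) := by
      have f3 := Nat.lt_div_mul_add hkpos (a := n)
      have f4 : n ≤ 2 * k * (n / k) := by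
        have f5 := Nat.mul_le_mul_left k f1
        have f6 : n / k * k = k * (n / k) := Nat.mul_comm _ _
        rw [f6] at f3
        calc n ≤ k * (n / k) + k := f3.le
          _ ≤ k * (n / k) + k * (n / k) := by omega
          _ = 2 * k * (n / k) := by ring
      rw [div_le_iff₀ (by positivity)]
      have : (n : ℝ) ≤ ((2 * k * (n / k) : ℕ) : ℝ) := by exact_mod_cast f4
      push_cast at this
      linarith
    calc (k : ℝ) * Λ / ((n / k : ℕ) : ℝ) ≤ (k : ℝ) * Λ / ((n : ℝ) / (2 * k)) := by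
          have : (0 : ℝ) < (n : ℝ) / (2 * k) := by positivity
          gcongr
      _ = 2 * k ^ 2 * (Λ / n) := by field_simp
      _ = _ := by
          rw [hnx, hΛ, ← Real.exp_sub]
          congr 2
          ring
  have hKx : (K : ℝ) ≤ 2 * x / lm := by
    rw [le_div_iff₀ hlm0]
    linarith
  have hRK : 1 ≤ (R : ℝ) * K := one_le_mul_of_one_le_of_one_le hR1 hK1
  have hlx : (l : ℝ) ≤ 4 * R * x / lm := by
    rw [hlr]
    calc 2 * (R : ℝ) * K ≤ 2 * R * (2 * x / lm) := by gcongr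
      _ = _ := by ring
  have hl1 : (1 : ℝ) ≤ l := by rw [hlr]; linarith
  have hlexp : 2 * (l : ℝ) ≤ Real.exp x := by
    calc 2 * (l : ℝ) ≤ 2 * (4 * R * x / lm) := by gcongr
      _ = 8 * R / lm * x := by ring
      _ ≤ _ := c5
  have hKexp : 2 * (K : ℝ) ≤ Real.exp x := by
    have h5 : (1 : ℝ) * K ≤ R * K := by gcongr
    have : (K : ℝ) ≤ l := by rw [hlr]; linarith
    linarith
  obtain ⟨g1, g2, g3⟩ := hkk K hK1 hKexp
  obtain ⟨g4, g5, g6⟩ := hkk l hl1 hlexp
  have hee : Real.exp (ε / 16 * x) * Real.exp (-(ε / 8 * x)) = Real.exp (-(ε / 16 * x)) := by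
    rw [← Real.exp_add]; congr 1; ring
  have g7 : 2 * (K : ℝ) ^ 2 * Real.exp (-(ε / 8 * x)) ≤ Real.exp (-(ε / 16 * x)) := by
    calc 2 * (K : ℝ) ^ 2 * Real.exp (-(ε / 8 * x))
        ≤ 2 * (2 * x / lm) ^ 2 * Real.exp (-(ε / 8 * x)) := by gcongr
      _ = (8 / lm ^ 2 * x ^ 2) * Real.exp (-(ε / 8 * x)) := by
          field_simp
          ring
      _ ≤ Real.exp (ε / 16 * x) * Real.exp (-(ε / 8 * x)) := by gcongr
      _ = _ := hee
  have g8 : 2 * (l : ℝ) ^ 2 * Real.exp (-(ε / 8 * x)) ≤ Real.exp (-(ε / 16 * x)) := by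
    calc 2 * (l : ℝ) ^ 2 * Real.exp (-(ε / 8 * x))
        ≤ 2 * (4 * R * x / lm) ^ 2 * Real.exp (-(ε / 8 * x)) := by gcongr
      _ = (32 * R ^ 2 / lm ^ 2 * x ^ 2) * Real.exp (-(ε / 8 * x)) := by
          field_simp
          ring
      _ ≤ Real.exp (ε / 16 * x) * Real.exp (-(ε / 8 * x)) := by gcongr
      _ = _ := hee
  have hθ : 256 * (m : ℝ) ^ 5 * (1 / (256 * (m : ℝ) ^ 5)) ≤ 1 := by
    rw [mul_one_div, div_self (by positivity)]
  have hθ0 : 0 < 1 / (256 * (m : ℝ) ^ 5) := by positivity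
  have hfin := core (n1 := n1) (d := d) (l := l) (Λ := Λ) (sA := sA) (sB := R * K)
    (NA := n / K) (NB := n / l) hW h0 h1 hA hp0 hp1.le hm0 hd1 hθ0 hθ hbad s1 s2 hΛ1
    (by rw [← hK]; exact s3) s4 g1 g4 (by rw [← hK]; exact g2) g5
  rw [← hK] at hfin
  rcases hfin with h2 | h2
  · left
    refine (ENNReal.ofReal_le_ofReal ?_).trans (h2.trans (Prb_mono W n ?_))
    · linarith
    · rintro ω ⟨S, hS, hR'⟩
      refine ⟨S, ?_, hR'⟩
      have hS' : (K : ℝ) + 1 ≤ S.card + sA := by exact_mod_cast hS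
      rw [div_le_iff₀ hlm0]
      have i1 : (1 - ε / 8) * K ≤ S.card := by linarith
      have i2 : (1 - ε / 8) * (lm * K) ≤ S.card * lm := by
        calc (1 - ε / 8) * (lm * K) = ((1 - ε / 8) * K) * lm := by ring
          _ ≤ _ := by gcongr
      have i3 : (1 - ε / 8) * ((2 - ε / 2) * x - lm * m ^ 2) ≤ (1 - ε / 8) * (lm * K) := by
        have : 0 ≤ 1 - ε / 8 := by linarith
        gcongr
      have i4 : (1 - ε / 8) * (lm * m ^ 2) ≤ lm * m ^ 2 := by
        have : 0 ≤ lm * (m : ℝ) ^ 2 := by positivity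
        exact mul_le_of_le_one_left this (by linarith)
      linarith [mul_pos (mul_pos hε0 hε0) x0]
  · right
    refine (ENNReal.ofReal_le_ofReal ?_).trans (h2.trans (Prb_mono W n ?_))
    · linarith
    · rintro ω ⟨S, hS, hR'⟩
      refine ⟨S, ?_, hR'⟩
      have hS2 : R * K < S.card := by omega
      have hS' : (R : ℝ) * K ≤ S.card := by
        have : ((R * K : ℕ) : ℝ) ≤ S.card := by exact_mod_cast hS2.le
        push_cast at this
        exact this
      refine le_trans ?_ hS'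
      have i1 : x ≤ lm * K := by linarith
      have i2 : κ * x * lm ≤ R * K * lm := by
        calc κ * x * lm = (κ * lm) * x := by ring
          _ ≤ R * (lm * K) := by gcongr
          _ = _ := by ring
      exact le_of_mul_le_mul_right i2 hlm0

end Pool.Agent.H136.GB
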