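import Pool.Graph.R_pool_sql_team_39128cda.H.MP_eaf82e_pr.K

set_option autoImplicit false

namespace Pool.Agent.H136.GB

open MeasureTheory Finset Pool.Agent.H.MP_eaf82e_pr

/-- Restricting a point of a power of a probability space to injectively chosen
coordinates preserves the measure. -/
lemma inj_mp {ι κ : Type} [Fintype ι] [Fintype κ] (μ : Measure ℝ) [IsProbabilityMeasure μ]
    (f : ι → κ) (hf : Function.Injective f) :
    MeasurePreserving (fun x : κ → ℝ => x ∘ f) (Measure.pi fun _ => μ)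
      (Measure.pi fun _ => μ) := by
  classical
  have hm : Measurable (fun x : κ → ℝ => x ∘ f) :=
    measurable_pi_lambda _ fun i => measurable_pi_apply (f i)
  refine ⟨hm, ?_⟩
  refine (Measure.pi_eq fun s hs => ?_).symm
  rw [Measure.map_apply hm (MeasurableSet.univ_pi hs)]
  let t : κ → Set ℝ := fun k => if h : ∃ i, f i = k then s h.choose else Set.univ
  have ht : ∀ i, t (f i) = s i := by
    intro i
    have h : ∃ j, f j = f i := ⟨i, rfl⟩
    have h2 : h.choose = i := hf h.choose_spec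
    simp only [t, dif_pos h, h2]
  have hpre : (fun x : κ → ℝ => x ∘ f) ⁻¹' (Set.univ.pi s) = Set.univ.pi t := by
    ext x
    simp only [Set.mem_preimage, Set.mem_univ_pi, Function.comp]
    constructor
    · intro h k
      by_cases hk : ∃ i, f i = k
      · obtain ⟨i, rfl⟩ := hk
        rw [ht]; exact h i
      · simp only [t, dif_neg hk, Set.mem_univ]
    · intro h i
      rw [← ht]; exact h (f i)
  rw [hpre, Measure.pi_pi]
  have h1 : ∏ k, μ (t k) = ∏ k ∈ univ.image f, μ (t k) := by
    symm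
    refine Finset.prod_subset (Finset.subset_univ _) fun k _ hk => ?_
    have : ¬ ∃ i, f i = k := by simpa using hk
    simp only [t, dif_neg this, measure_univ]
  rw [h1, Finset.prod_image fun a _ b _ h => hf h]
  exact Finset.prod_congr rfl fun i _ => by rw [ht]

variable {K n N : ℕ}

/-- The coordinates where two tuples agree. -/
def agr (u v : Fin K → Fin N) : Finset (Fin K) := univ.filter fun a => u a = v a

/-- The vertex number of the `v a`-th element of the group `a`. -/
def tau (h : K * N ≤ n) (v : Fin K → Fin N) (a : Fin K) : Fin n :=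
  ⟨a * N + v a, by
    have h1 := (v a).2
    have h2 : ((a : ℕ) + 1) * N ≤ K * N := Nat.mul_le_mul_right _ a.2
    have h3 : ((a : ℕ) + 1) * N = a * N + N := by ring
    omega⟩

lemma tau_lt (h : K * N ≤ n) (u v : Fin K → Fin N) {a b : Fin K} (hab : a < b) :
    tau h u a < tau h v b := by
  have h1 := (u a).2
  have h2 : ((a : ℕ) + 1) * N ≤ b * N := Nat.mul_le_mul_right _ hab
  have h3 : ((a : ℕ) + 1) * N = a * N + N := by ring
  simp only [tau, Fin.mk_lt_mk]
  omega

lemma tau_eq (h : K * N ≤ n) {u v : Fin K → Fin N} {a b : Fin K}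
    (hab : tau h u a = tau h v b) : a = b ∧ u a = v b := by
  rcases lt_trichotomy a b with h1 | h1 | h1
  · exact absurd hab (tau_lt h u v h1).ne
  · subst h1
    refine ⟨rfl, ?_⟩
    have := congrArg Fin.val hab
    simp only [tau] at this
    exact Fin.ext (by omega)
  · exact absurd hab (tau_lt h v u h1).ne'

lemma tau_inj (h : K * N ≤ n) (v : Fin K → Fin N) : Function.Injective (tau h v) :=
  fun _ _ hab => (tau_eq h hab).1

lemma pair_int (h : K * N ≤ n) (hN : 2 ≤ N) (u v : Fin K → Fin N)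
    (G : (Fin K → ℝ) → (Fin K → ℝ) → ENNReal) (hG : Measurable (Function.uncurry G)) :
    ∫⁻ x, G (x ∘ tau h u) (x ∘ tau h v) ∂(mun n) =
      ∫⁻ y, ∫⁻ z, G y ((agr u v).piecewise y z) ∂(mun K) ∂(mun K) := by
  classical
  have : NeZero N := ⟨by omega⟩
  let o : Fin N → Fin N := fun i => if i.1 = 0 then ⟨1, by omega⟩ else ⟨0, by omega⟩
  have ho : ∀ i, o i ≠ i := by
    intro i hi
    by_cases h0 : i.1 = 0
    · have := congrArg Fin.val hi
      simp only [o, if_pos h0] at this
      omega
    · have := congrArg Fin.val hi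
      simp only [o, if_neg h0] at this
      omega
  let v' : Fin K → Fin N := fun a => if u a = v a then o (u a) else v a
  have hv' : ∀ a, u a ≠ v' a := by
    intro a ha
    by_cases h0 : u a = v a
    · simp only [v', if_pos h0] at ha
      exact ho _ ha.symm
    · simp only [v', if_neg h0] at ha
      exact h0 ha
  let f : Fin K ⊕ Fin K → Fin n := Sum.elim (tau h u) (tau h v')
  have hf : Function.Injective f := by
    rintro (a | a) (b | b) hab
    · exact congrArg _ (tau_inj h u hab)
    · have h1 := tau_eq h (u := u) (v := v') hab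
      obtain ⟨rfl, h2⟩ := h1
      exact absurd h2 (hv' _)
    · have h1 := tau_eq h (u := v') (v := u) hab
      obtain ⟨rfl, h2⟩ := h1
      exact absurd h2.symm (hv' _)
    · exact congrArg _ (tau_inj h v' hab)
  have e1 : ∀ x : Fin n → ℝ, x ∘ tau h v =
      (agr u v).piecewise (x ∘ tau h u) (x ∘ tau h v') := by
    intro x
    funext a
    by_cases ha : u a = v a
    · rw [Finset.piecewise_eq_of_mem _ _ _ (by simpa [agr] using ha)]
      simp only [Function.comp, tau, ha]
    · rw [Finset.piecewise_eq_of_notMem _ _ _ (by simpa [agr] using ha)]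
      simp only [Function.comp, tau, v', if_neg ha]
  have hpw : Measurable (fun yz : (Fin K → ℝ) × (Fin K → ℝ) =>
      (agr u v).piecewise yz.1 yz.2) := by
    refine measurable_pi_lambda _ fun a => ?_
    by_cases ha : a ∈ agr u v
    · simp only [Finset.piecewise_eq_of_mem _ _ _ ha]
      exact (measurable_pi_apply a).comp measurable_fst
    · simp only [Finset.piecewise_eq_of_notMem _ _ _ ha]
      exact (measurable_pi_apply a).comp measurable_snd
  let g : (Fin K → ℝ) × (Fin K → ℝ) → ENNReal := fun yz =>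
    G yz.1 ((agr u v).piecewise yz.1 yz.2)
  have hg : Measurable g := hG.comp (measurable_fst.prodMk hpw)
  have hsp := measurePreserving_sumPiEquivProdPi (fun _ : Fin K ⊕ Fin K => lam)
  calc ∫⁻ x, G (x ∘ tau h u) (x ∘ tau h v) ∂(mun n)
      = ∫⁻ x, (g ∘ (MeasurableEquiv.sumPiEquivProdPi fun _ : Fin K ⊕ Fin K => ℝ)) (x ∘ f)
          ∂(mun n) := by
        refine lintegral_congr fun x => ?_
        rw [e1 x]
        rfl
    _ = ∫⁻ y, (g ∘ (MeasurableEquiv.sumPiEquivProdPi fun _ : Fin K ⊕ Fin K => ℝ)) y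
          ∂(Measure.pi fun _ => lam) :=
        (inj_mp lam f hf).lintegral_comp (hg.comp (MeasurableEquiv.measurable _))
    _ = ∫⁻ yz, g yz ∂((mun K).prod (mun K)) := hsp.lintegral_comp hg
    _ = _ := lintegral_prod _ hg.aemeasurable

/-- The probabilities of the edges, given the types. -/
def px (W : ℝ → ℝ → ℝ) {n : ℕ} (x : Fin n → ℝ) (e : Ed n) : ℝ := W (x e.1.1) (x e.1.2)

noncomputable def PW (W : ℝ → ℝ → ℝ) (S : Finset (Ed K)) (y : Fin K → ℝ) : ENNReal :=
  ∏ e ∈ S, ENNReal.ofReal (px W y e)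

lemma PW_le_one {W : ℝ → ℝ → ℝ} (h1 : ∀ x y, W x y ≤ 1) (S : Finset (Ed K)) (y : Fin K → ℝ) :
    PW W S y ≤ 1 :=
  Finset.prod_le_one' fun _ _ => ENNReal.ofReal_le_one.mpr (h1 _ _)

lemma PW_anti {W : ℝ → ℝ → ℝ} (h1 : ∀ x y, W x y ≤ 1) {S S' : Finset (Ed K)} (h : S ⊆ S')
    (y : Fin K → ℝ) : PW W S' y ≤ PW W S y :=
  Finset.prod_le_prod_of_subset_of_le_one' h fun _ _ _ => ENNReal.ofReal_le_one.mpr (h1 _ _)

lemma meas_px {W : ℝ → ℝ → ℝ} (hW : Measurable (Function.uncurry W)) (e : Ed n) :
    Measurable (fun x : Fin n → ℝ => px W x e) := by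
  have h := hW.comp ((measurable_pi_apply (X := fun _ : Fin n => ℝ) e.1.1).prodMk
    (measurable_pi_apply (X := fun _ : Fin n => ℝ) e.1.2))
  exact h

lemma meas_PW {W : ℝ → ℝ → ℝ} (hW : Measurable (Function.uncurry W)) (S : Finset (Ed K)) :
    Measurable (PW W S) :=
  Finset.measurable_fun_prod _ fun e _ => (meas_px hW e).ennreal_ofReal

lemma edge_sum {ι : Type} [Fintype ι] [DecidableEq ι] {p : ι → ℝ} (h0 : ∀ e, 0 ≤ p e)
    (h1 : ∀ e, p e ≤ 1) (A : Finset ι) :
    ∑ ω : ι → Bool, ENNReal.ofReal (wt p ω) * (if ∀ e ∈ A, ω e = true then 1 else 0) =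
      ∏ e ∈ A, ENNReal.ofReal (p e) := by
  have key : ∑ ω : ι → Bool, wt p ω * (if ∀ e ∈ A, ω e = true then 1 else 0) =
      ∏ e ∈ A, p e := by
    have h := sum_wt_false (fun e => 1 - p e) A
    simp only [sub_sub_cancel] at h
    rw [← h]
    refine Fintype.sum_equiv (Equiv.arrowCongr (Equiv.refl ι) Equiv.boolNot) _ _ fun ω => ?_
    have e1 : wt p ω = wt (fun e => 1 - p e)
        ((Equiv.arrowCongr (Equiv.refl ι) Equiv.boolNot) ω) := by
      refine Finset.prod_congr rfl fun e _ => ?_
      cases hω : ω e <;> simp [Equiv.arrowCongr, hω]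
    rw [e1]
    congr 1
    simp [Equiv.arrowCongr]
  rw [← ENNReal.ofReal_prod_of_nonneg fun e _ => h0 e, ← key, ENNReal.ofReal_sum_of_nonneg]
  · refine Finset.sum_congr rfl fun ω _ => ?_
    rw [ENNReal.ofReal_mul (wt_nonneg h0 h1 ω)]
    split_ifs <;> simp
  · intro ω _
    refine mul_nonneg (wt_nonneg h0 h1 ω) ?_
    split_ifs <;> norm_num

open Classical in
/-- The indicator of a proposition. -/
noncomputable def idc (E : Prop) : ENNReal := if E then 1 else 0

lemma idc_pos {E : Prop} (h : E) : idc E = 1 := if_pos h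

lemma idc_neg {E : Prop} (h : ¬ E) : idc E = 0 := if_neg h

/-- The probability that the random graph has the property `E`. -/
noncomputable def Prb (W : ℝ → ℝ → ℝ) (n : ℕ) (E : (Ed n → Bool) → Prop) : ENNReal :=
  ∫⁻ x, ∑ ω : Ed n → Bool, ENNReal.ofReal (wt (px W x) ω) * idc (E ω) ∂(mun n)

/-- All pairs in `S` are edges. -/
def Red (ω : Ed n → Bool) (S : Finset (Fin n)) : Prop := ∀ e ∈ ES S, ω e = true

/-- The pair of vertices of a pair of groups. -/
def em (h : K * N ≤ n) (v : Fin K → Fin N) (e : Ed K) : Ed n :=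
  ⟨(tau h v e.1.1, tau h v e.1.2), tau_lt h v v e.2⟩

lemma px_em (W : ℝ → ℝ → ℝ) (h : K * N ≤ n) (v : Fin K → Fin N) (e : Ed K) (x : Fin n → ℝ) :
    px W x (em h v e) = px W (x ∘ tau h v) e := rfl

lemma em_inj (h : K * N ≤ n) (v : Fin K → Fin N) : Function.Injective (em h v) := by
  intro e e' hee
  have h1 : (tau h v e.1.1, tau h v e.1.2) = (tau h v e'.1.1, tau h v e'.1.2) :=
    congrArg Subtype.val hee
  rw [Prod.mk.injEq] at h1
  exact Subtype.ext (Prod.ext (tau_inj h v h1.1) (tau_inj h v h1.2))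

/-- The conditional density of the structures, given the types in `A`. -/
noncomputable def DD (W : ℝ → ℝ → ℝ) (φ : (Fin K → ℝ) → ENNReal) (T A : Finset (Fin K))
    (ζ : Fin K → ℝ) : ENNReal :=
  ∫⁻ z, φ (A.piecewise ζ z) * PW W (ES T \ ES A) (A.piecewise ζ z) ∂(mun K)

lemma sum_pow_agr (Λ : ℝ) (u : Fin K → Fin N) :
    ∑ v : Fin K → Fin N, Λ ^ (agr u v).card = (Λ + (N - 1 : ℕ)) ^ K := by
  have h1 : ∀ v : Fin K → Fin N, Λ ^ (agr u v).card = ∏ a, (if u a = v a then Λ else 1) := by
    intro v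
    rw [Finset.prod_ite, Finset.prod_const, Finset.prod_const_one, mul_one]
    rfl
  simp only [h1]
  have h := Finset.prod_univ_sum (fun _ : Fin K => (univ : Finset (Fin N)))
    (fun a b => if u a = b then Λ else 1)
  rw [Fintype.piFinset_univ] at h
  rw [← h]
  have h2 : ∀ a : Fin K, ∑ b : Fin N, (if u a = b then Λ else 1) = Λ + (N - 1 : ℕ) := by
    intro a
    rw [← Finset.add_sum_erase _ _ (Finset.mem_univ (u a)), if_pos rfl]
    congr 1
    rw [Finset.sum_congr rfl (g := fun _ => (1 : ℝ))]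
    · simp
    · intro b hb
      rw [if_neg (Finset.ne_of_mem_erase hb).symm]
  simp only [h2]
  simp


open Classical in
/-- The indicator of a structure at the tuple `v`. -/
noncomputable def ind (h : K * N ≤ n) (T : Finset (Fin K)) (v : Fin K → Fin N)
    (ω : Ed n → Bool) : ENNReal := if ∀ e ∈ (ES T).image (em h v), ω e = true then 1 else 0

lemma ind_mul (h : K * N ≤ n) (T : Finset (Fin K)) (u v : Fin K → Fin N) (ω : Ed n → Bool) :
    ind h T u ω * ind h T v ω = if ∀ e ∈ (ES T).image (em h u) ∪ (ES T).image (em h v),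
      ω e = true then 1 else 0 := by
  classical
  unfold ind
  by_cases h1 : ∀ e ∈ (ES T).image (em h u), ω e = true
  · by_cases h2 : ∀ e ∈ (ES T).image (em h v), ω e = true
    · rw [if_pos h1, if_pos h2, if_pos, mul_one]
      intro e he
      rcases Finset.mem_union.mp he with he | he
      · exact h1 e he
      · exact h2 e he
    · rw [if_neg h2, mul_zero, if_neg]
      exact fun h3 => h2 fun e he => h3 e (Finset.mem_union_right _ he)
  · rw [if_neg h1, zero_mul, if_neg]
    exact fun h3 => h1 fun e he => h3 e (Finset.mem_union_left _ he)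

section sums
variable {W : ℝ → ℝ → ℝ} (h0 : ∀ x y, 0 ≤ W x y) (h1 : ∀ x y, W x y ≤ 1)
include h0 h1

lemma sum_ind (h : K * N ≤ n) (T : Finset (Fin K)) (v : Fin K → Fin N) (x : Fin n → ℝ) :
    ∑ ω : Ed n → Bool, ENNReal.ofReal (wt (px W x) ω) * ind h T v ω =
      PW W (ES T) (x ∘ tau h v) := by
  classical
  have he := edge_sum (p := px W x) (fun e => h0 _ _) (fun e => h1 _ _) ((ES T).image (em h v))
  rw [Finset.prod_image fun a _ b _ hab => em_inj h v hab] at he
  refine Eq.trans ?_ he
  refine Finset.sum_congr rfl fun ω _ => ?_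
  rw [ind]

lemma sum_ind_mul (h : K * N ≤ n) (T : Finset (Fin K)) (u v : Fin K → Fin N)
    (x : Fin n → ℝ) :
    ∑ ω : Ed n → Bool, ENNReal.ofReal (wt (px W x) ω) * (ind h T u ω * ind h T v ω) ≤
      PW W (ES T) (x ∘ tau h u) * PW W (ES T \ ES (agr u v)) (x ∘ tau h v) := by
  classical
  have he := edge_sum (p := px W x) (fun e => h0 _ _) (fun e => h1 _ _)
    ((ES T).image (em h u) ∪ (ES T).image (em h v))
  have he2 : ∑ ω : Ed n → Bool, ENNReal.ofReal (wt (px W x) ω) * (ind h T u ω * ind h T v ω) =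
      ∏ e ∈ (ES T).image (em h u) ∪ (ES T).image (em h v), ENNReal.ofReal (px W x e) := by
    refine Eq.trans ?_ he
    refine Finset.sum_congr rfl fun ω _ => ?_
    rw [ind_mul]
  rw [he2]
  have hd : Disjoint ((ES T).image (em h u)) ((ES T \ ES (agr u v)).image (em h v)) := by
    rw [Finset.disjoint_left]
    intro e he he'
    obtain ⟨a, ha, rfl⟩ := Finset.mem_image.mp he
    obtain ⟨b, hb, hab⟩ := Finset.mem_image.mp he'
    have h3 : (tau h v b.1.1, tau h v b.1.2) = (tau h u a.1.1, tau h u a.1.2) :=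
      congrArg Subtype.val hab
    rw [Prod.mk.injEq] at h3
    have h4 := tau_eq h h3.1
    have h5 := tau_eq h h3.2
    refine (Finset.mem_sdiff.mp hb).2 ?_
    simp only [ES, agr, Finset.mem_filter, Finset.mem_univ, true_and]
    exact ⟨by rw [h4.2, h4.1], by rw [h5.2, h5.1]⟩
  have hs : (ES T).image (em h u) ∪ (ES T \ ES (agr u v)).image (em h v) ⊆
      (ES T).image (em h u) ∪ (ES T).image (em h v) :=
    Finset.union_subset_union le_rfl (Finset.image_subset_image Finset.sdiff_subset)
  refine (Finset.prod_le_prod_of_subset_of_le_one' hs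
    fun e _ _ => ENNReal.ofReal_le_one.mpr (h1 _ _)).trans ?_
  rw [Finset.prod_union hd, Finset.prod_image fun a _ b _ hab => em_inj h u hab,
    Finset.prod_image fun a _ b _ hab => em_inj h v hab]
  rfl

end sums

/-- **Second moment lemma.** -/
theorem SM {W : ℝ → ℝ → ℝ} (hW : Measurable (Function.uncurry W)) (h0 : ∀ x y, 0 ≤ W x y)
    (h1 : ∀ x y, W x y ≤ 1) (h : K * N ≤ n) (hN : 2 ≤ N) (T : Finset (Fin K))
    (φ : (Fin K → ℝ) → ENNReal) (hφ : Measurable φ) (hφ1 : ∀ y, φ y ≤ 1) {Λ : ℝ} (hΛ : 0 ≤ Λ)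
    {β : ENNReal} (hβ : β = ∫⁻ y, φ y * PW W (ES T) y ∂(mun K)) (hβ0 : β ≠ 0)
    (hD : ∀ (A : Finset (Fin K)) (ζ : Fin K → ℝ),
      DD W φ T A ζ ≤ ENNReal.ofReal (Λ ^ A.card) * β) :
    ENNReal.ofReal (1 - K * Λ / N) ≤
      Prb W n (fun ω => ∃ S : Finset (Fin n), S.card = T.card ∧ Red ω S) := by
  classical
  -- the random variable
  let X : (Fin n → ℝ) → (Ed n → Bool) → ENNReal := fun x ω =>
    ∑ v : Fin K → Fin N, φ (x ∘ tau h v) * ind h T v ω
  let wx : (Fin n → ℝ) → (Ed n → Bool) → ENNReal := fun x ω => ENNReal.ofReal (wt (px W x) ω)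
  have hβ1 : β ≤ 1 := by
    rw [hβ]
    calc _ ≤ ∫⁻ y, 1 ∂(mun K) := lintegral_mono fun y => by
          calc φ y * PW W (ES T) y ≤ 1 * 1 := mul_le_mul' (hφ1 y) (PW_le_one h1 _ _)
            _ = 1 := one_mul 1
      _ = 1 := by simp
  have hcomp : ∀ v : Fin K → Fin N, Measurable (fun x : Fin n → ℝ => x ∘ tau h v) := fun v =>
    measurable_pi_lambda _ fun i => measurable_pi_apply (tau h v i)
  have hwx : ∀ ω, Measurable (fun x => wx x ω) := by
    intro ω
    refine Measurable.ennreal_ofReal (Finset.measurable_fun_prod _ fun e _ => ?_)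
    split_ifs
    · exact meas_px hW e
    · exact (meas_px hW e).const_sub 1
  have hXm : ∀ ω, Measurable (fun x => X x ω) := fun ω =>
    Finset.measurable_fun_sum _ fun v _ => ((hφ.comp (hcomp v)).mul_const _)
  -- first moment
  have e1 : ∫⁻ x, ∑ ω, wx x ω * X x ω ∂(mun n) = (N : ENNReal) ^ K * β := by
    have e2 : ∀ x, ∑ ω, wx x ω * X x ω =
        ∑ v : Fin K → Fin N, (fun y => φ y * PW W (ES T) y) (x ∘ tau h v) := by
      intro x
      simp only [X, Finset.mul_sum]
      rw [Finset.sum_comm]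
      refine Finset.sum_congr rfl fun v _ => ?_
      rw [← sum_ind h0 h1 h T v x, Finset.mul_sum]
      exact Finset.sum_congr rfl fun ω _ => by ring
    have hg : Measurable (fun y => φ y * PW W (ES T) y) := hφ.mul (meas_PW hW _)
    have e2' : ∫⁻ x, ∑ v : Fin K → Fin N, ((fun y => φ y * PW W (ES T) y) ∘
        (fun x : Fin n → ℝ => x ∘ tau h v)) x ∂(mun n) = ∑ v : Fin K → Fin N,
        ∫⁻ x, ((fun y => φ y * PW W (ES T) y) ∘ (fun x : Fin n → ℝ => x ∘ tau h v)) x ∂(mun n) :=
      lintegral_finsetSum _ fun v _ => hg.comp (hcomp v)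
    rw [lintegral_congr e2]
    refine Eq.trans e2' ?_
    have e3 : ∀ v : Fin K → Fin N,
        ∫⁻ x, (fun y => φ y * PW W (ES T) y) (x ∘ tau h v) ∂(mun n) = β := by
      intro v
      rw [hβ]
      exact (inj_mp lam (tau h v) (tau_inj h v)).lintegral_comp hg
    refine (Finset.sum_congr rfl fun v _ => e3 v).trans ?_
    simp
  -- second moment
  have e4 : ∫⁻ x, ∑ ω, wx x ω * X x ω ^ 2 ∂(mun n) ≤
      (N : ENNReal) ^ K * ENNReal.ofReal ((Λ + (N - 1 : ℕ)) ^ K) * β ^ 2 := by
    have e5 : ∀ x, ∑ ω, wx x ω * X x ω ^ 2 ≤ ∑ u : Fin K → Fin N, ∑ v : Fin K → Fin N,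
        (fun y z => (φ y * PW W (ES T) y) * (φ z * PW W (ES T \ ES (agr u v)) z))
          (x ∘ tau h u) (x ∘ tau h v) := by
      intro x
      have e6 : ∀ ω, wx x ω * X x ω ^ 2 = ∑ u : Fin K → Fin N, ∑ v : Fin K → Fin N,
          (φ (x ∘ tau h u) * φ (x ∘ tau h v)) * (wx x ω * (ind h T u ω * ind h T v ω)) := by
        intro ω
        simp only [X]
        rw [sq, Finset.sum_mul_sum, Finset.mul_sum]
        refine Finset.sum_congr rfl fun u _ => ?_
        rw [Finset.mul_sum]
        exact Finset.sum_congr rfl fun v _ => by ring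
      simp only [e6]
      rw [Finset.sum_comm]
      refine Finset.sum_le_sum fun u _ => ?_
      rw [Finset.sum_comm]
      refine Finset.sum_le_sum fun v _ => ?_
      rw [← Finset.mul_sum]
      calc _ ≤ (φ (x ∘ tau h u) * φ (x ∘ tau h v)) *
            (PW W (ES T) (x ∘ tau h u) * PW W (ES T \ ES (agr u v)) (x ∘ tau h v)) :=
            mul_le_mul' le_rfl (sum_ind_mul h0 h1 h T u v x)
        _ = _ := by ring
    have hG : ∀ S : Finset (Ed K), Measurable (Function.uncurry
        (fun y z : Fin K → ℝ => (φ y * PW W (ES T) y) * (φ z * PW W S z))) := by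
      intro S
      have m1 : Measurable (fun y => φ y * PW W (ES T) y) := hφ.mul (meas_PW hW _)
      have m2 : Measurable (fun y => φ y * PW W S y) := hφ.mul (meas_PW hW _)
      exact (m1.comp measurable_fst).mul (m2.comp measurable_snd)
    calc ∫⁻ x, ∑ ω, wx x ω * X x ω ^ 2 ∂(mun n)
        ≤ ∫⁻ x, ∑ u : Fin K → Fin N, ∑ v : Fin K → Fin N,
          (fun y z => (φ y * PW W (ES T) y) * (φ z * PW W (ES T \ ES (agr u v)) z))
            (x ∘ tau h u) (x ∘ tau h v) ∂(mun n) := lintegral_mono e5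
      _ = ∑ u : Fin K → Fin N, ∑ v : Fin K → Fin N, ∫⁻ x,
          (fun y z => (φ y * PW W (ES T) y) * (φ z * PW W (ES T \ ES (agr u v)) z))
            (x ∘ tau h u) (x ∘ tau h v) ∂(mun n) := by
          rw [lintegral_finsetSum]
          · refine Finset.sum_congr rfl fun u _ => ?_
            rw [lintegral_finsetSum]
            intro v _
            exact (hG _).comp ((hcomp u).prodMk (hcomp v))
          · intro u _
            refine Finset.measurable_fun_sum _ fun v _ => ?_
            exact (hG _).comp ((hcomp u).prodMk (hcomp v))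
      _ ≤ ∑ u : Fin K → Fin N, ∑ v : Fin K → Fin N,
          ENNReal.ofReal (Λ ^ (agr u v).card) * β ^ 2 := by
          refine Finset.sum_le_sum fun u _ => Finset.sum_le_sum fun v _ => ?_
          rw [pair_int h hN u v _ (hG _)]
          calc _ = ∫⁻ y, (φ y * PW W (ES T) y) * DD W φ T (agr u v) y ∂(mun K) := by
                refine lintegral_congr fun y => ?_
                rw [lintegral_const_mul']
                · rfl
                · exact ENNReal.mul_ne_top ((hφ1 y).trans_lt ENNReal.one_lt_top).ne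
                    ((PW_le_one h1 _ y).trans_lt ENNReal.one_lt_top).ne
            _ ≤ ∫⁻ y, (φ y * PW W (ES T) y) * (ENNReal.ofReal (Λ ^ (agr u v).card) * β)
                  ∂(mun K) := lintegral_mono fun y => mul_le_mul' le_rfl (hD _ y)
            _ = _ := by
                rw [lintegral_mul_const' _ _ (ENNReal.mul_ne_top ENNReal.ofReal_ne_top
                  (hβ1.trans_lt ENNReal.one_lt_top).ne), ← hβ]
                ring
      _ = _ := by
          simp only [← Finset.sum_mul]
          congr 1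
          have e7 : ∀ u : Fin K → Fin N, ∑ v : Fin K → Fin N,
              ENNReal.ofReal (Λ ^ (agr u v).card) =
              ENNReal.ofReal ((Λ + (N - 1 : ℕ)) ^ K) := by
            intro u
            rw [← ENNReal.ofReal_sum_of_nonneg fun v _ => by positivity, sum_pow_agr]
          simp only [e7]
          simp
  -- positive values of `X` give cliques
  have e8 : ∀ x ω, X x ω ≠ 0 → ∃ S : Finset (Fin n), S.card = T.card ∧ Red ω S := by
    intro x ω hX
    obtain ⟨v, -, hv⟩ := Finset.exists_ne_zero_of_sum_ne_zero hX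
    have h2 : ∀ e ∈ (ES T).image (em h v), ω e = true := by
      by_contra h3
      exact hv (by rw [ind, if_neg h3, mul_zero])
    refine ⟨T.image (tau h v), Finset.card_image_of_injective _ (tau_inj h v), ?_⟩
    intro e he
    simp only [ES, Finset.mem_filter, Finset.mem_univ, true_and, Finset.mem_image] at he
    obtain ⟨⟨a, ha, ha2⟩, b, hb, hb2⟩ := he
    have hab : a < b := by
      by_contra h4
      rcases lt_or_eq_of_le (not_lt.mp h4) with h5 | h5
      · have := tau_lt h v v h5
        rw [ha2, hb2] at this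
        exact absurd e.2 this.not_gt
      · rw [h5] at hb2
        have := e.2
        rw [← ha2, ← hb2] at this
        exact lt_irrefl _ this
    have h6 : e = em h v ⟨(a, b), hab⟩ :=
      Subtype.ext (Prod.ext ha2.symm hb2.symm)
    rw [h6]
    refine h2 _ (Finset.mem_image_of_mem _ ?_)
    simp only [ES, Finset.mem_filter, Finset.mem_univ, true_and]
    exact ⟨ha, hb⟩
  have hXfin : ∀ x ω, X x ω ≠ ⊤ := by
    intro x ω
    refine (ENNReal.sum_lt_top.mpr fun v _ => ?_).ne
    refine ENNReal.mul_lt_top ((hφ1 _).trans_lt ENNReal.one_lt_top) ?_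
    unfold ind
    split_ifs <;> simp
  -- the inequality of Paley and Zygmund
  have e9 : ∀ c : NNReal, 2 * c * ((N : ENNReal) ^ K * β) ≤ c ^ 2 *
      Prb W n (fun ω => ∃ S : Finset (Fin n), S.card = T.card ∧ Red ω S) +
      (N : ENNReal) ^ K * ENNReal.ofReal ((Λ + (N - 1 : ℕ)) ^ K) * β ^ 2 := by
    intro c
    have m2 : ∀ ω, Measurable (fun x => wx x ω * X x ω ^ 2) := fun ω =>
      (hwx ω).mul ((hXm ω).pow_const 2)
    calc 2 * c * ((N : ENNReal) ^ K * β)
        = ∫⁻ x, (2 * c) * ∑ ω, wx x ω * X x ω ∂(mun n) := by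
          rw [lintegral_const_mul' _ _ (by simp [ENNReal.mul_eq_top]), e1]
      _ ≤ ∫⁻ x, (c ^ 2 * ∑ ω, wx x ω * idc (∃ S : Finset (Fin n),
            S.card = T.card ∧ Red ω S) + ∑ ω, wx x ω * X x ω ^ 2)
            ∂(mun n) := by
          refine lintegral_mono fun x => ?_
          simp only []
          rw [Finset.mul_sum, Finset.mul_sum, ← Finset.sum_add_distrib]
          refine Finset.sum_le_sum fun ω _ => ?_
          have hX : 2 * (c : ENNReal) * X x ω ≤ c ^ 2 * idc (∃ S : Finset (Fin n),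
            S.card = T.card ∧ Red ω S) + X x ω ^ 2 := by
            by_cases hx0 : X x ω = 0
            · simp [hx0]
            · rw [idc_pos (e8 x ω hx0)]
              have hf := hXfin x ω
              generalize X x ω = t at hf
              lift t to NNReal using hf
              have := two_mul_le_add_sq c t
              rw [mul_one]
              exact_mod_cast this
          calc 2 * (c : ENNReal) * (wx x ω * X x ω) = wx x ω * (2 * (c : ENNReal) * X x ω) := by
                ring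
            _ ≤ wx x ω * (c ^ 2 * idc (∃ S : Finset (Fin n),
                S.card = T.card ∧ Red ω S) + X x ω ^ 2) :=
                mul_le_mul' le_rfl hX
            _ = _ := by ring
      _ = c ^ 2 * Prb W n (fun ω => ∃ S : Finset (Fin n), S.card = T.card ∧ Red ω S) +
          ∫⁻ x, ∑ ω, wx x ω * X x ω ^ 2 ∂(mun n) := by
          rw [lintegral_add_right _ (Finset.measurable_fun_sum _ fun ω _ => m2 ω),
            lintegral_const_mul' _ _ (by simp)]
          rfl
      _ ≤ _ := by gcongr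
  -- conclusion
  set P := Prb W n (fun ω => ∃ S : Finset (Fin n), S.card = T.card ∧ Red ω S) with hP
  by_cases hPt : P = ⊤
  · rw [hPt]; exact le_top
  have hbt : β ≠ ⊤ := (hβ1.trans_lt ENNReal.one_lt_top).ne
  lift P to NNReal using hPt with P' hP'
  lift β to NNReal using hbt with b hb
  have hb0 : (0 : ℝ) < b := by
    have : b ≠ 0 := by rintro rfl; exact hβ0 rfl
    exact_mod_cast pos_iff_ne_zero.mpr this
  have hNr : (0 : ℝ) < N := by
    have : 0 < N := by omega
    exact_mod_cast this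
  have hNm : ((N - 1 : ℕ) : ℝ) = N - 1 := by
    rw [Nat.cast_sub (by omega)]; simp
  have hq0 : (0 : ℝ) < Λ + (N - 1 : ℕ) := by
    rw [hNm]
    have : (2 : ℝ) ≤ N := by exact_mod_cast hN
    linarith
  set Q : ℝ := (Λ + (N - 1 : ℕ)) ^ K with hQ
  have hQ0 : 0 < Q := pow_pos hq0 K
  obtain ⟨Qb, hQb⟩ : ∃ q : NNReal, (q : ℝ) = Q * b := ⟨⟨Q * b, by positivity⟩, rfl⟩
  obtain ⟨Qn, hQn⟩ : ∃ q : NNReal, (q : ℝ) = Q := ⟨⟨Q, hQ0.le⟩, rfl⟩
  have e10 := e9 Qb
  have e11 : 2 * (Q * b) * ((N : ℝ) ^ K * b) ≤ (Q * b) ^ 2 * P' + (N : ℝ) ^ K * Q * b ^ 2 := by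
    have h3 : ENNReal.ofReal Q = (Qn : ENNReal) := by
      rw [← hQn, ENNReal.ofReal_coe_nnreal]
    rw [h3] at e10
    have h4 : (2 : NNReal) * Qb * ((N : NNReal) ^ K * b) ≤
        Qb ^ 2 * P' + (N : NNReal) ^ K * Qn * b ^ 2 := by
      exact_mod_cast e10
    have h5 := NNReal.coe_le_coe.mpr h4
    push_cast at h5
    rw [hQb, hQn] at h5
    exact h5
  have e12 : (N : ℝ) ^ K ≤ Q * P' := by
    have h6 : (Q * b ^ 2) * (N : ℝ) ^ K ≤ (Q * b ^ 2) * (Q * P') := by nlinarith
    exact le_of_mul_le_mul_left h6 (by positivity)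
  refine ENNReal.ofReal_le_of_le_toReal ?_
  rw [ENNReal.coe_toReal]
  by_cases hbig : Λ / N ≤ 1
  · have h7 : 1 - Λ / N ≤ N / (Λ + (N - 1 : ℕ)) := by
      rw [le_div_iff₀ hq0, hNm]
      have h8 : (1 - Λ / N) * (Λ + (N - 1)) = N - 1 + Λ / N - Λ * Λ / N := by
        field_simp
        ring
      rw [h8]
      have h9 : Λ / N - Λ * Λ / N = (Λ - Λ * Λ) / N := by ring
      have h10 : (Λ - Λ * Λ) / N ≤ 1 := by
        rw [div_le_one hNr]
        have : (2 : ℝ) ≤ N := by exact_mod_cast hN
        nlinarith [sq_nonneg (Λ - 1)]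
      linarith
    have h11 : (1 - Λ / N) ^ K ≤ (N / (Λ + (N - 1 : ℕ))) ^ K :=
      pow_le_pow_left₀ (by linarith) h7 K
    have h12 : (N / (Λ + (N - 1 : ℕ))) ^ K ≤ P' := by
      rw [div_pow, div_le_iff₀ (pow_pos hq0 K), mul_comm]
      exact e12
    have h13 : 1 + (K : ℝ) * (-(Λ / N)) ≤ (1 + -(Λ / N)) ^ K :=
      one_add_mul_le_pow (by linarith) K
    have h14 : 1 - K * Λ / N = 1 + (K : ℝ) * (-(Λ / N)) := by ring
    rw [h14]
    refine h13.trans (le_trans (le_of_eq ?_) (h11.trans h12))
    ring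
  · replace hbig := not_le.mp hbig
    rcases Nat.eq_zero_or_pos K with hK | hK
    · subst hK
      have : (1 : ℝ) ≤ P' := by simpa [hQ] using e12
      simpa using this
    · have hK1 : (1 : ℝ) ≤ K := by exact_mod_cast hK
      have h15 : (1 : ℝ) < K * (Λ / N) := by nlinarith
      have h16 : (K : ℝ) * Λ / N = K * (Λ / N) := by ring
      rw [h16]
      have : (0 : ℝ) ≤ P' := P'.2
      linarith

end Pool.Agent.H136.GB
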