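import Pool.Agent.H136.GB.TY

set_option autoImplicit false

namespace Pool.Agent.H136.GB

open MeasureTheory Finset Pool.Agent.H.MP_eaf82e_pr

/-- The symmetric relation of a colouring. -/
def rr {n : ℕ} (ω : Ed n → Bool) (u v : Fin n) : Prop :=
  (∃ h : u < v, ω ⟨(u, v), h⟩ = true) ∨ (∃ h : v < u, ω ⟨(v, u), h⟩ = true)

lemma rr_symm {n : ℕ} (ω : Ed n → Bool) (u v : Fin n) (h : rr ω u v) : rr ω v u := h.symm

lemma rr_lt {n : ℕ} {ω : Ed n → Bool} {u v : Fin n} (huv : u < v) :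
    rr ω u v ↔ ω ⟨(u, v), huv⟩ = true := by
  constructor
  · rintro (⟨_, h⟩ | ⟨h, _⟩)
    · exact h
    · exact absurd h huv.not_gt
  · exact fun h => Or.inl ⟨huv, h⟩

lemma divNat_mono {m n : ℕ} {a b : Fin (m * n)} (h : a ≤ b) : a.divNat ≤ b.divNat := by
  rw [Fin.le_def, Fin.coe_divNat, Fin.coe_divNat]
  exact Nat.div_le_div_right h

/-- The pairs of vertices inside blocks. -/
def wi (m q : ℕ) : Finset (Ed (m * q)) := univ.filter fun e => e.1.1.divNat = e.1.2.divNat

/-- The indicator of the tuples of types with good pairs of types across blocks. -/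
noncomputable def ph {m : ℕ} (q : ℕ) (W : ℝ → ℝ → ℝ) (A : Fin m → Set ℝ) (p : ℝ)
    (y : Fin (m * q) → ℝ) : ENNReal :=
  idc ((∀ a, y a ∈ A a.divNat) ∧ ∀ e : Ed (m * q), e.1.1.divNat ≠ e.1.2.divNat →
    p ≤ W (y e.1.1) (y e.1.2))

lemma meas_ph {m : ℕ} (q : ℕ) {W : ℝ → ℝ → ℝ} (hW : Measurable (Function.uncurry W))
    {A : Fin m → Set ℝ} (hA : ∀ i, MeasurableSet (A i)) (p : ℝ) : Measurable (ph q W A p) := by
  classical
  unfold ph idc
  have s1 : MeasurableSet {y : Fin (m * q) → ℝ | ∀ a, y a ∈ A a.divNat} := by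
    have : {y : Fin (m * q) → ℝ | ∀ a, y a ∈ A a.divNat} =
        ⋂ a : Fin (m * q), (fun y : Fin (m * q) → ℝ => y a) ⁻¹' (A a.divNat) := by
      ext y; simp
    rw [this]
    exact MeasurableSet.iInter fun a => measurable_pi_apply a (hA _)
  have s2 : MeasurableSet {y : Fin (m * q) → ℝ | ∀ e : Ed (m * q),
      e.1.1.divNat ≠ e.1.2.divNat → p ≤ W (y e.1.1) (y e.1.2)} := by
    have : {y : Fin (m * q) → ℝ | ∀ e : Ed (m * q),
        e.1.1.divNat ≠ e.1.2.divNat → p ≤ W (y e.1.1) (y e.1.2)} =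
        ⋂ e : Ed (m * q), ⋂ _ : e.1.1.divNat ≠ e.1.2.divNat,
          {y : Fin (m * q) → ℝ | p ≤ W (y e.1.1) (y e.1.2)} := by
      ext y; simp
    rw [this]
    exact MeasurableSet.iInter fun e => MeasurableSet.iInter fun _ =>
      measurableSet_le measurable_const (meas_px hW e)
  exact Measurable.ite (s1.inter s2) measurable_const measurable_const

theorem struct {W : ℝ → ℝ → ℝ} {m n1 d l : ℕ} {A : Fin m → Set ℝ} {p θ : ℝ} (hd : 0 < d)
    (hθ0 : 0 < θ) (hθ : 256 * (m : ℝ) ^ 5 * θ ≤ 1) (x : Fin (m * n1) → ℝ)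
    (hx : ∀ i j, i < j → (nbad W A p x i j : ℝ) ≤
        16 * m ^ 2 * θ * (VV A x i).card * (VV A x j).card)
    (hbig : ∀ i, 4 * (((2 * m * d).choose d) ^ m * (2 * m * d + l).choose (2 * m * d)) ≤
      (VV A x i).card) (ω : Ed (m * n1) → Bool) :
    (∃ (f : Fin l → Fin (m * n1)) (hf : StrictMono f), ∀ e ∈ (univ : Finset (Ed l)),
        ω (emf f hf e) = false) ∨
      (∃ (f : Fin (m * (m * d)) → Fin (m * n1)) (hf : StrictMono f),
        ph (m * d) W A p (x ∘ f) = 1 ∧ ∀ e ∈ wi m (m * d), ω (emf f hf e) = true) := by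
  classical
  by_cases hm : 0 < m
  swap
  · -- no blocks
    have hm0 : m = 0 := by omega
    subst hm0
    refine Or.inr ⟨fun a => absurd a.2 (by omega), fun a => absurd a.2 (by omega), ?_, ?_⟩
    · rw [ph, idc_pos]
      exact ⟨fun a => absurd a.2 (by omega), fun e => absurd e.1.1.2 (by omega)⟩
    · exact fun e => absurd e.1.1.2 (by omega)
  have hmr : (0 : ℝ) < m := by exact_mod_cast hm
  have hb := block (rr ω) (fun u v => p ≤ W (x u) (x v)) (rr_symm ω) (m := m) (d := d) (l := l)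
    hd (VV A x) (θ := 16 * m ^ 2 * θ) (by positivity) (by
      calc 16 * (m : ℝ) ^ 3 * (16 * m ^ 2 * θ) = 256 * m ^ 5 * θ := by ring
        _ ≤ 1 := hθ) (by
      intro i j hij
      refine le_trans (Nat.cast_le.mpr (Finset.card_le_card ?_)) (hx i j hij)
      intro z hz
      simp only [Finset.mem_filter] at hz ⊢
      exact hz) hbig
  rcases hb with ⟨S, hS, hS2⟩ | ⟨S, hS, hS2⟩
  · refine Or.inl ⟨S.orderEmbOfFin hS, (S.orderEmbOfFin hS).strictMono, ?_⟩
    intro e _
    have hlt : S.orderEmbOfFin hS e.1.1 < S.orderEmbOfFin hS e.1.2 :=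
      (S.orderEmbOfFin hS).strictMono e.2
    have h1 := hS2 _ (S.orderEmbOfFin_mem hS e.1.1) _ (S.orderEmbOfFin_mem hS e.1.2) hlt.ne
    simp only [rr_lt hlt] at h1
    exact Bool.eq_false_iff.mpr h1
  · right
    have hc : ∀ i, (S i).card = m * d := fun i => (hS i).2.1
    let F : Fin m → Fin (m * d) → Fin (m * n1) := fun i t => (S i).orderEmbOfFin (hc i) t
    have hF : ∀ i t, F i t ∈ S i := fun i t => (S i).orderEmbOfFin_mem (hc i) t
    have hFV : ∀ i t, (F i t).divNat = i ∧ x (F i t) ∈ A i := by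
      intro i t
      have := (hS i).1 (hF i t)
      rw [VV, Finset.mem_filter] at this
      exact this.2
    have hfm : StrictMono (fun a : Fin (m * (m * d)) => F a.divNat a.modNat) := by
      intro a b hab
      rcases (divNat_mono hab.le).eq_or_lt with h1 | h1
      · have h2 : a.modNat < b.modNat := by
          have h3 : (a.divNat : ℕ) = b.divNat := congrArg Fin.val h1
          rw [Fin.coe_divNat, Fin.coe_divNat] at h3
          rw [Fin.lt_def, Fin.coe_modNat, Fin.coe_modNat]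
          have h4 := Nat.div_add_mod a.1 (m * d)
          have h5 := Nat.div_add_mod b.1 (m * d)
          have h6 : a.1 < b.1 := hab
          rw [h3] at h4
          omega
        simp only []
        rw [h1]
        exact ((S b.divNat).orderEmbOfFin (hc _)).strictMono h2
      · by_contra hcon
        have h2 := divNat_mono (not_lt.mp hcon)
        simp only [(hFV _ _).1] at h2
        exact absurd h1 (not_lt.mpr h2)
    refine ⟨_, hfm, ?_, ?_⟩
    · rw [ph, idc_pos]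
      refine ⟨fun a => (hFV _ _).2, fun e he => ?_⟩
      exact hS2 _ _ (lt_of_le_of_ne (divNat_mono e.2.le) he) _ (hF _ _) _ (hF _ _)
    · intro e he
      have he2 : e.1.1.divNat = e.1.2.divNat := by
        simpa [wi] using he
      have hlt : F e.1.1.divNat e.1.1.modNat < F e.1.2.divNat e.1.2.modNat := hfm e.2
      have h1 : F e.1.1.divNat e.1.1.modNat ∈ S e.1.2.divNat := by
        rw [← he2]; exact hF _ _
      have h2 := (hS e.1.2.divNat).2.2 _ h1 _ (hF _ _) hlt.ne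
      exact (rr_lt hlt).mp h2

/-- **Supersaturation.** -/
theorem sample {W : ℝ → ℝ → ℝ} (hW : Measurable (Function.uncurry W)) (h0 : ∀ x y, 0 ≤ W x y)
    (h1 : ∀ x y, W x y ≤ 1) {m n1 d l : ℕ} {A : Fin m → Set ℝ}
    (hA : ∀ i, MeasurableSet (A i)) {p θ : ℝ} (hm : 0 < m) (hd : 0 < d)
    (hθ0 : 0 < θ) (hθ : 256 * (m : ℝ) ^ 5 * θ ≤ 1)
    (hbad : ∀ i j, i < j → (lam.prod lam).real
      {z : ℝ × ℝ | z.1 ∈ A i ∧ z.2 ∈ A j ∧ W z.1 z.2 < p} ≤ θ * lam.real (A i) * lam.real (A j))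
    (hn1 : ∀ i, 16 * (m : ℝ) ≤ n1 * lam.real (A i) ^ 2)
    (hbig : ∀ i, (4 * (((2 * m * d).choose d) ^ m * (2 * m * d + l).choose (2 * m * d)) : ℕ) ≤
      (n1 : ℝ) * lam.real (A i) / 2) :
    ENNReal.ofReal (1 / 2) ≤
      ((m * n1 : ℕ) : ENNReal) ^ l * ∫⁻ y, PW (cpl W) univ y ∂(mun l) +
      ((m * n1 : ℕ) : ENNReal) ^ (m * (m * d)) *
        ∫⁻ y, ph (m * d) W A p y * PW W (wi m (m * d)) y ∂(mun (m * (m * d))) := by
  refine first hW h0 h1 (wi m (m * d)) (ph (m * d) W A p) (meas_ph _ hW hA p) _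
    (types hW hA p hθ0 hbad hm hn1) ?_
  rintro x ⟨hx1, hx2⟩ ω
  refine struct hd hθ0 hθ x hx2 (fun i => ?_) ω
  have := (hbig i).trans (hx1 i)
  exact_mod_cast this

end Pool.Agent.H136.GB
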