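import Pool.Agent.H136.GB.FM

set_option autoImplicit false

namespace Pool.Agent.H136.GB

open MeasureTheory Finset Pool.Agent.H.MP_eaf82e_pr

variable {m n1 : ℕ}

open Classical in
/-- The vertices of the group `i` whose type is in `A i`. -/
noncomputable def VV (A : Fin m → Set ℝ) (x : Fin (m * n1) → ℝ) (i : Fin m) :
    Finset (Fin (m * n1)) := univ.filter fun v => v.divNat = i ∧ x v ∈ A i

lemma VV_card (A : Fin m → Set ℝ) (x : Fin (m * n1) → ℝ) (i : Fin m) :
    ((VV A x i).card : ℝ) = cnt (A i) (fun t : Fin n1 => x (finProdFinEquiv (i, t))) := by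
  classical
  rw [VV, Finset.card_filter, cnt, ← Equiv.sum_comp finProdFinEquiv, Fintype.sum_prod_type]
  push_cast
  rw [Finset.sum_eq_single i]
  · refine Finset.sum_congr rfl fun t _ => ?_
    have h1 : (finProdFinEquiv (i, t)).divNat = i := by
      have := finProdFinEquiv.symm_apply_apply (i, t)
      exact congrArg Prod.fst this
    by_cases h2 : x (finProdFinEquiv (i, t)) ∈ A i
    · simp [h1, h2]
    · simp [h2]
  · intro j _ hj
    refine Finset.sum_eq_zero fun t _ => ?_
    have h1 : (finProdFinEquiv (j, t)).divNat = j := by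
      have := finProdFinEquiv.symm_apply_apply (j, t)
      exact congrArg Prod.fst this
    rw [if_neg]
    rw [h1]
    tauto
  · simp

open Classical in
/-- The indicator of a bad pair of types. -/
noncomputable def bd (W : ℝ → ℝ → ℝ) (A B : Set ℝ) (p : ℝ) (z : ℝ × ℝ) : ℝ :=
  if z.1 ∈ A ∧ z.2 ∈ B ∧ W z.1 z.2 < p then 1 else 0

lemma bd_nonneg (W : ℝ → ℝ → ℝ) (A B : Set ℝ) (p : ℝ) (z : ℝ × ℝ) : 0 ≤ bd W A B p z := by
  unfold bd
  split_ifs <;> norm_num

lemma bd_set {W : ℝ → ℝ → ℝ} (hW : Measurable (Function.uncurry W)) {A B : Set ℝ}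
    (hA : MeasurableSet A) (hB : MeasurableSet B) (p : ℝ) :
    MeasurableSet {z : ℝ × ℝ | z.1 ∈ A ∧ z.2 ∈ B ∧ W z.1 z.2 < p} :=
  (measurable_fst hA).inter ((measurable_snd hB).inter (measurableSet_lt hW measurable_const))

lemma bd_BM {W : ℝ → ℝ → ℝ} (hW : Measurable (Function.uncurry W)) {A B : Set ℝ}
    (hA : MeasurableSet A) (hB : MeasurableSet B) (p : ℝ) : BM (bd W A B p) := by
  refine ⟨Measurable.ite (bd_set hW hA hB p) measurable_const measurable_const, 1, fun z => ?_⟩
  unfold bd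
  split_ifs <;> norm_num

lemma bd_B {W : ℝ → ℝ → ℝ} (hW : Measurable (Function.uncurry W)) {A C : Set ℝ}
    (hA : MeasurableSet A) (hC : MeasurableSet C) (p : ℝ) :
    B (bd W A C p) lam lam =
      (lam.prod lam).real {z : ℝ × ℝ | z.1 ∈ A ∧ z.2 ∈ C ∧ W z.1 z.2 < p} := by
  classical
  unfold B
  rw [← integral_indicator_one (bd_set hW hA hC p)]
  refine integral_congr_ae (Filter.Eventually.of_forall fun z => ?_)
  simp only [bd, Set.indicator, Set.mem_ofPred_eq, Pi.one_apply]

open Classical in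
/-- The number of bad pairs. -/
noncomputable def nbad (W : ℝ → ℝ → ℝ) (A : Fin m → Set ℝ) (p : ℝ) (x : Fin (m * n1) → ℝ)
    (i j : Fin m) : ℕ :=
  (((VV A x i) ×ˢ (VV A x j)).filter fun z => ¬ (p ≤ W (x z.1) (x z.2))).card

lemma nbad_eq (W : ℝ → ℝ → ℝ) (A : Fin m → Set ℝ) (p : ℝ) (x : Fin (m * n1) → ℝ)
    (i j : Fin m) :
    (nbad W A p x i j : ℝ) = ∑ s : Fin n1, ∑ t : Fin n1,
      bd W (A i) (A j) p (x (finProdFinEquiv (i, s)), x (finProdFinEquiv (j, t))) := by
  classical
  have hdiv : ∀ (j : Fin m) (t : Fin n1), (finProdFinEquiv (j, t)).divNat = j := by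
    intro j t
    have := finProdFinEquiv.symm_apply_apply (j, t)
    exact congrArg Prod.fst this
  have e1 : (nbad W A p x i j : ℝ) = ∑ u : Fin (m * n1), ∑ v : Fin (m * n1),
      (if u.divNat = i ∧ v.divNat = j then bd W (A i) (A j) p (x u, x v) else 0) := by
    rw [nbad, Finset.card_filter, Finset.sum_product, VV, VV, Finset.sum_filter]
    push_cast
    refine Finset.sum_congr rfl fun u _ => ?_
    by_cases hu : u.divNat = i ∧ x u ∈ A i
    · rw [if_pos hu, Finset.sum_filter]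
      refine Finset.sum_congr rfl fun v _ => ?_
      by_cases hv : v.divNat = j ∧ x v ∈ A j
      · rw [if_pos hv, if_pos (show u.divNat = i ∧ v.divNat = j from ⟨hu.1, hv.1⟩), bd]
        simp only [hu.2, hv.2, true_and, not_le]
      · rw [if_neg hv]
        by_cases hv2 : v.divNat = j
        · rw [if_pos ⟨hu.1, hv2⟩, bd, if_neg]
          exact fun h => hv ⟨hv2, h.2.1⟩
        · rw [if_neg]
          exact fun h => hv2 h.2
    · rw [if_neg hu]
      symm
      refine Finset.sum_eq_zero fun v _ => ?_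
      by_cases hu2 : u.divNat = i ∧ v.divNat = j
      · rw [if_pos hu2, bd, if_neg]
        exact fun h => hu ⟨hu2.1, h.1⟩
      · rw [if_neg hu2]
  rw [e1, ← Equiv.sum_comp finProdFinEquiv, Fintype.sum_prod_type, Finset.sum_eq_single i]
  · refine Finset.sum_congr rfl fun s _ => ?_
    rw [← Equiv.sum_comp finProdFinEquiv, Fintype.sum_prod_type, Finset.sum_eq_single j]
    · refine Finset.sum_congr rfl fun t _ => ?_
      rw [if_pos ⟨hdiv _ _, hdiv _ _⟩]
    · intro j' _ hj'
      refine Finset.sum_eq_zero fun t _ => ?_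
      rw [if_neg]
      rw [hdiv j' t]
      exact fun h => hj' h.2
    · simp
  · intro i' _ hi'
    refine Finset.sum_eq_zero fun s _ => Finset.sum_eq_zero fun v _ => ?_
    rw [if_neg]
    rw [hdiv i' s]
    exact fun h => hi' h.1
  · simp

lemma nbad_markov {W : ℝ → ℝ → ℝ} (hW : Measurable (Function.uncurry W)) {A : Fin m → Set ℝ}
    (hA : ∀ i, MeasurableSet (A i)) (p : ℝ) {i j : Fin m} (hij : i < j) {t : ℝ} (ht : 0 < t) :
    (mun (m * n1)).real {x | t ≤ (nbad W A p x i j : ℝ)} ≤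
      n1 ^ 2 * (lam.prod lam).real {z : ℝ × ℝ | z.1 ∈ A i ∧ z.2 ∈ A j ∧ W z.1 z.2 < p} / t := by
  rw [le_div_iff₀' ht]
  have hF := bd_BM hW (hA i) (hA j) p
  have hne : ∀ s t : Fin n1, finProdFinEquiv (i, s) ≠ finProdFinEquiv (j, t) := by
    intro s t h
    have := finProdFinEquiv.injective h
    rw [Prod.mk.injEq] at this
    exact hij.ne this.1
  simp only [nbad_eq]
  refine (mul_meas_ge_le_integral_of_nonneg (ae_of_all _ fun x => Finset.sum_nonneg fun u _ =>
    Finset.sum_nonneg fun v _ => bd_nonneg _ _ _ _ _)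
    (integrable_finsetSum _ fun u _ => integrable_finsetSum _ fun v _ => hF.pair_int _ _)
    t).trans ?_
  rw [integral_finsetSum _ fun u _ => integrable_finsetSum _ fun v _ => hF.pair_int _ _]
  rw [← bd_B hW (hA i) (hA j) p]
  calc _ ≤ ∑ u : Fin n1, ∑ v : Fin n1, B (bd W (A i) (A j) p) lam lam := by
        refine Finset.sum_le_sum fun u _ => ?_
        rw [integral_finsetSum _ fun v _ => hF.pair_int _ _]
        exact Finset.sum_le_sum fun v _ => (pair_integral hF (hne u v)).le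
    _ = _ := by simp; ring

/-- **Most samples of types are good.** -/
theorem types {W : ℝ → ℝ → ℝ} (hW : Measurable (Function.uncurry W)) {A : Fin m → Set ℝ}
    (hA : ∀ i, MeasurableSet (A i)) (p : ℝ) {θ : ℝ} (hθ : 0 < θ)
    (hbad : ∀ i j, i < j → (lam.prod lam).real
      {z : ℝ × ℝ | z.1 ∈ A i ∧ z.2 ∈ A j ∧ W z.1 z.2 < p} ≤ θ * lam.real (A i) * lam.real (A j))
    (hm : 0 < m) (hn1 : ∀ i, 16 * (m : ℝ) ≤ n1 * lam.real (A i) ^ 2) :
    (mun (m * n1)).real {x | (∀ i, (n1 : ℝ) * lam.real (A i) / 2 ≤ (VV A x i).card) ∧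
      ∀ i j, i < j → (nbad W A p x i j : ℝ) ≤
        16 * m ^ 2 * θ * (VV A x i).card * (VV A x j).card}ᶜ ≤ 1 / 2 := by
  classical
  have hmr : (0 : ℝ) < m := by exact_mod_cast hm
  have hμ : ∀ i, 0 < lam.real (A i) := by
    intro i
    rcases (measureReal_nonneg (μ := lam) (s := A i)).eq_or_lt with h | h
    · have := hn1 i
      rw [← h] at this
      norm_num at this
      linarith
    · exact h
  have hn0 : 0 < n1 := by
    rcases Nat.eq_zero_or_pos n1 with h | h
    · have := hn1 ⟨0, hm⟩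
      rw [h] at this
      norm_num at this
      linarith
    · exact h
  have hn0r : (0 : ℝ) < n1 := by exact_mod_cast hn0
  let E1 : Fin m → Set (Fin (m * n1) → ℝ) := fun i =>
    {x | cnt (A i) (fun t : Fin n1 => x (finProdFinEquiv (i, t))) < (1 - 1 / 2) * n1 *
      lam.real (A i)}
  let E2 : Fin m × Fin m → Set (Fin (m * n1) → ℝ) := fun ij =>
    {x | 4 * m ^ 2 * θ * (n1 * lam.real (A ij.1)) * (n1 * lam.real (A ij.2)) ≤
      (nbad W A p x ij.1 ij.2 : ℝ)}
  let Pr : Finset (Fin m × Fin m) := univ.filter fun ij => ij.1 < ij.2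
  have hsub : {x | (∀ i, (n1 : ℝ) * lam.real (A i) / 2 ≤ (VV A x i).card) ∧
      ∀ i j, i < j → (nbad W A p x i j : ℝ) ≤
        16 * m ^ 2 * θ * (VV A x i).card * (VV A x j).card}ᶜ ⊆
      (⋃ i ∈ (univ : Finset (Fin m)), E1 i) ∪ (⋃ ij ∈ Pr, E2 ij) := by
    intro x hx
    by_contra hcon
    apply hx
    simp only [Set.mem_union, Set.mem_iUnion, not_or, not_exists] at hcon
    have h1 : ∀ i, (n1 : ℝ) * lam.real (A i) / 2 ≤ (VV A x i).card := by
      intro i
      have := hcon.1 i (Finset.mem_univ _)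
      simp only [E1, Set.mem_ofPred_eq, not_lt] at this
      rw [VV_card]
      linarith
    refine ⟨h1, fun i j hij => ?_⟩
    have h2 := hcon.2 (i, j) (Finset.mem_filter.mpr ⟨Finset.mem_univ _, hij⟩)
    simp only [E2, Set.mem_ofPred_eq, not_le] at h2
    have h3 := h1 i
    have h4 := h1 j
    have h5 : 0 < (n1 : ℝ) * lam.real (A i) / 2 := by
      have := hμ i
      positivity
    have h6 : 0 < (n1 : ℝ) * lam.real (A j) / 2 := by
      have := hμ j
      positivity
    calc (nbad W A p x i j : ℝ) ≤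
        4 * m ^ 2 * θ * (n1 * lam.real (A i)) * (n1 * lam.real (A j)) := h2.le
      _ = 16 * m ^ 2 * θ * (n1 * lam.real (A i) / 2) * (n1 * lam.real (A j) / 2) := by ring
      _ ≤ _ := by gcongr
  have hE1 : ∀ i, (mun (m * n1)).real (E1 i) ≤ 1 / (4 * m) := by
    intro i
    have h1 := cnt_low (n := n1) (hA i) (δ := 1 / 2) (by norm_num) hn0
    have h2 : (mun (m * n1)) (E1 i) ≤ (mun n1) {x | cnt (A i) x < (1 - 1 / 2) * n1 *
        lam.real (A i)} := by
      have hinj : Function.Injective (fun t : Fin n1 => finProdFinEquiv (i, t)) := by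
        intro s t h
        have := finProdFinEquiv.injective h
        rw [Prod.mk.injEq] at this
        exact this.2
      have hmp := inj_mp lam (fun t : Fin n1 => finProdFinEquiv (i, t)) hinj
      have := Measure.le_map_apply (μ := mun (m * n1)) hmp.measurable.aemeasurable
        {x | cnt (A i) x < (1 - 1 / 2) * n1 * lam.real (A i)}
      have h3 : (mun (m * n1)).map (fun x => x ∘ fun t : Fin n1 => finProdFinEquiv (i, t)) =
          mun n1 := hmp.map_eq
      rw [h3] at this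
      exact this
    have h3 : (mun (m * n1)).real (E1 i) ≤ (mun n1).real {x | cnt (A i) x < (1 - 1 / 2) * n1 *
        lam.real (A i)} :=
      ENNReal.toReal_mono (measure_ne_top _ _) h2
    refine h3.trans (h1.trans ?_)
    have h4 := hn1 i
    have h5 := hμ i
    rw [inv_eq_one_div, div_div, div_le_div_iff₀ (by positivity) (by positivity)]
    nlinarith
  have hE2 : ∀ ij ∈ Pr, (mun (m * n1)).real (E2 ij) ≤ 1 / (4 * m ^ 2) := by
    intro ij hij
    have hij' : ij.1 < ij.2 := (Finset.mem_filter.mp hij).2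
    have h5 := hμ ij.1
    have h6 := hμ ij.2
    refine (nbad_markov hW hA p hij' (by positivity)).trans ?_
    have h7 := hbad ij.1 ij.2 hij'
    rw [div_le_div_iff₀ (by positivity) (by positivity)]
    calc (n1 : ℝ) ^ 2 * (lam.prod lam).real
          {z : ℝ × ℝ | z.1 ∈ A ij.1 ∧ z.2 ∈ A ij.2 ∧ W z.1 z.2 < p} * (4 * m ^ 2)
        ≤ (n1 : ℝ) ^ 2 * (θ * lam.real (A ij.1) * lam.real (A ij.2)) * (4 * m ^ 2) := by gcongr
      _ = _ := by ring
  have hPr : (Pr.card : ℝ) ≤ m ^ 2 := by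
    have h1 : Pr.card ≤ m ^ 2 := by
      calc Pr.card ≤ Fintype.card (Fin m × Fin m) := Finset.card_le_univ _
        _ = m ^ 2 := by simp [sq]
    exact_mod_cast h1
  calc _ ≤ (mun (m * n1)).real ((⋃ i ∈ (univ : Finset (Fin m)), E1 i) ∪ (⋃ ij ∈ Pr, E2 ij)) :=
        measureReal_mono hsub
    _ ≤ (mun (m * n1)).real (⋃ i ∈ (univ : Finset (Fin m)), E1 i) +
        (mun (m * n1)).real (⋃ ij ∈ Pr, E2 ij) := measureReal_union_le _ _
    _ ≤ ∑ i : Fin m, (mun (m * n1)).real (E1 i) + ∑ ij ∈ Pr, (mun (m * n1)).real (E2 ij) :=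
        add_le_add (measureReal_biUnion_finset_le _ _) (measureReal_biUnion_finset_le _ _)
    _ ≤ ∑ i : Fin m, 1 / (4 * (m : ℝ)) + ∑ ij ∈ Pr, 1 / (4 * (m : ℝ) ^ 2) :=
        add_le_add (Finset.sum_le_sum fun i _ => hE1 i) (Finset.sum_le_sum hE2)
    _ = m * (1 / (4 * (m : ℝ))) + Pr.card * (1 / (4 * (m : ℝ) ^ 2)) := by simp
    _ ≤ m * (1 / (4 * (m : ℝ))) + m ^ 2 * (1 / (4 * (m : ℝ) ^ 2)) := by gcongr
    _ = 1 / 2 := by
        field_simp
        norm_num

end Pool.Agent.H136.GB
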